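import Mathlib

/-!
Closed forms for terminating hypergeometric sums at `9/8`, by creative telescoping.
-/

namespace Pool.Agent.helper90.Tri

/-- terms of the hypergeometric series with parameters `-A, -a; -c` at `9/8` -/
def tt (A a c : ℚ) : ℕ → ℚ
  | 0 => 1
  | k + 1 => tt A a c k * (9 * ((k : ℚ) - A) * ((k : ℚ) - a) / (8 * ((k : ℚ) - c) * ((k : ℚ) + 1)))

theorem tt_zero (A a c : ℚ) : tt A a c 0 = 1 := rfl

theorem tt_succ (A a c : ℚ) (k : ℕ) : tt A a c (k + 1) =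
    tt A a c k * (9 * ((k : ℚ) - A) * ((k : ℚ) - a) / (8 * ((k : ℚ) - c) * ((k : ℚ) + 1))) := rfl

theorem tt_ratio (A a c : ℚ) (k : ℕ) (hc : ∀ i < k, (i : ℚ) - c ≠ 0)
    (hc' : ∀ i < k, (i : ℚ) - (c + 3) ≠ 0) :
    tt (A + 2) (a + 2) (c + 3) k * ((A + 2 - k) * (A + 1 - k) * (a + 2 - k) * (a + 1 - k)) *
      ((c + 3) * (c + 2) * (c + 1)) =
    tt A a c k * ((A + 2) * (A + 1) * (a + 2) * (a + 1)) *
      ((c + 3 - k) * (c + 2 - k) * (c + 1 - k)) := by
  induction k with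
  | zero => simp only [tt_zero, Nat.cast_zero]; ring
  | succ k ih =>
    have ih := ih (fun i hi => hc i (by omega)) (fun i hi => hc' i (by omega))
    have h1 := hc k (by omega)
    have h2 := hc' k (by omega)
    have h3 : (k : ℚ) + 1 ≠ 0 := by positivity
    rw [tt_succ, tt_succ]
    push_cast
    have e1 : tt (A + 2) (a + 2) (c + 3) k * (9 * ((k : ℚ) - (A + 2)) * ((k : ℚ) - (a + 2)) /
        (8 * ((k : ℚ) - (c + 3)) * ((k : ℚ) + 1))) * ((A + 2 - (k + 1)) * (A + 1 - (k + 1)) *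
        (a + 2 - (k + 1)) * (a + 1 - (k + 1))) * ((c + 3) * (c + 2) * (c + 1)) =
        (tt (A + 2) (a + 2) (c + 3) k * ((A + 2 - k) * (A + 1 - k) * (a + 2 - k) * (a + 1 - k)) *
          ((c + 3) * (c + 2) * (c + 1))) * (9 * ((k : ℚ) - A) * ((k : ℚ) - a) /
          (8 * ((k : ℚ) - (c + 3)) * ((k : ℚ) + 1))) := by
      field_simp
      ring
    rw [e1, ih]
    field_simp
    ring

theorem step_alg {T T' C D1 D2 D3 D4 u v w z E : ℚ} (h1 : D1 ≠ 0) (h2 : D2 ≠ 0) (h3 : D3 ≠ 0)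
    (h4 : D4 ≠ 0) (hC : C ≠ 0) (hr : T' * (D1 * D2 * D3 * D4) * C = T * E)
    (hm : C * (z * D1 * D3 - u) = C * (v * (D1 * D2 * D3 * D4)) + w * E) :
    T * u / (D1 * D2 * D3 * D4) + (v * T + w * T') = T * z / (D2 * D4) := by
  have hD : D1 * D2 * D3 * D4 ≠ 0 := by simp [h1, h2, h3, h4]
  rw [div_add' _ _ _ hD, div_eq_div_iff hD (mul_ne_zero h2 h4)]
  apply mul_left_cancel₀ hC
  linear_combination (w * D2 * D4) * hr - T * D2 * D4 * hm

theorem end_alg {T T' C PP A1 A2 g g2 e0 e1 e2 e3 em y1 y2 s1 s2 : ℚ}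
    (hA1 : A1 ≠ 0) (hA2 : A2 ≠ 0) (hg : g ≠ 0) (hg2 : g2 ≠ 0) (he0 : e0 ≠ 0) (he2 : e2 ≠ 0)
    (he3 : e3 ≠ 0) (hem : em ≠ 0) (hC : C ≠ 0)
    (hr : T' * (2 * g2 * g) * C = T * PP * (e3 * e2 * e1))
    (h1 : C * (9 / 8 * y2 * g + A1 * e0 * y1) = s1 * PP * (e2 * e1 * e0))
    (h2 : C * (A2 * em * y2) = s2 * PP * (e1 * e0 * em)) :
    T * (9 / 8 * y1) / g + (s1 * (-(9 * 2 * g2 / (8 * e3 * A1)) * T') +
      s2 * (-(9 * g / (8 * e2 * A2)) * (-(9 * 2 * g2 / (8 * e3 * A1)) * T'))) = 0 := by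
  have h2' : C * (A2 * y2) = s2 * PP * (e1 * e0) := by
    apply mul_left_cancel₀ hem
    linear_combination h2
  have hT' : T' = T * PP * (e3 * e2 * e1) / ((2 * g2 * g) * C) := by
    rw [eq_div_iff (by simp [hg, hg2, hC])]
    linear_combination hr
  rw [hT']
  have e : T * (9 / 8 * y1) / g + (s1 * (-(9 * 2 * g2 / (8 * e3 * A1)) *
      (T * PP * (e3 * e2 * e1) / ((2 * g2 * g) * C))) +
      s2 * (-(9 * g / (8 * e2 * A2)) * (-(9 * 2 * g2 / (8 * e3 * A1)) *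
      (T * PP * (e3 * e2 * e1) / ((2 * g2 * g) * C))))) =
      (T * (9 / 8 * y1) * C * A1 * A2 * e0 - 9 / 8 * T * (s1 * PP * (e2 * e1 * e0)) * A2 +
        81 / 64 * T * g * (s2 * PP * (e1 * e0))) / (g * C * A1 * A2 * e0) := by
    field_simp
    ring
  rw [e, ← h1, ← h2']
  rw [div_eq_zero_iff]
  left
  ring

/-- creative telescoping with shift `A, a, c ↦ A + 2, a + 2, c + 3` -/
theorem tele (A : ℕ) (a c : ℚ) (Y w0 w1 : ℚ → ℚ) (c0 c1 : ℚ)
    (hc : ∀ i : ℕ, i ≤ A → (i : ℚ) - c ≠ 0)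
    (hc' : ∀ i : ℕ, i ≤ A + 1 → (i : ℚ) - (c + 3) ≠ 0)
    (hc2 : (c - 1 - A) ≠ 0)
    (hC : (c + 3) * (c + 2) * (c + 1) ≠ 0)
    (ha : ∀ i : ℕ, i ≤ A + 1 → a + 2 - i ≠ 0)
    (h : ∀ k : ℚ, ((c + 3) * (c + 2) * (c + 1)) *
      (9 / 8 * Y (k + 1) * (A + 2 - k) * (a + 2 - k) - k * (k - 1 - c) * Y k) =
      ((c + 3) * (c + 2) * (c + 1)) * (c0 * w0 k * ((A + 2 - k) * (A + 1 - k) * (a + 2 - k) *
        (a + 1 - k))) +
      c1 * w1 k * ((A + 2) * (A + 1) * (a + 2) * (a + 1)) *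
        ((c + 3 - k) * (c + 2 - k) * (c + 1 - k))) :
    c0 * ∑ k ∈ Finset.range (A + 1), w0 k * tt A a c k +
      c1 * ∑ k ∈ Finset.range (A + 3), w1 k * tt (A + 2) (a + 2) (c + 3) k = 0 := by
  have ha' : ∀ i : ℕ, i ≤ A → a + 1 - i ≠ 0 := by
    intro i hi h0
    apply ha (i + 1) (by omega)
    push_cast
    linarith
  have hA2 : (A : ℚ) + 2 ≠ 0 := by positivity
  have hA1 : (A : ℚ) + 1 ≠ 0 := by positivity
  -- partial sums
  have key : ∀ m : ℕ, m ≤ A →
      c0 * ∑ k ∈ Finset.range (m + 1), w0 k * tt A a c k +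
      c1 * ∑ k ∈ Finset.range (m + 1), w1 k * tt (A + 2) (a + 2) (c + 3) k =
        tt A a c m * (9 / 8 * Y (m + 1)) / ((A + 1 - m) * (a + 1 - m)) := by
    intro m hm
    induction m with
    | zero =>
      have h0 := h 0
      have ha2 := ha 0 (by omega)
      have ha1 := ha' 0 (by omega)
      simp only [Nat.cast_zero, sub_zero] at ha2 ha1
      simp only [zero_add, Finset.sum_range_one, tt_zero, Nat.cast_zero, mul_one, sub_zero, one_mul]
      rw [eq_div_iff (mul_ne_zero hA1 ha1)]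
      have e : ((c + 3) * (c + 2) * (c + 1)) * ((A : ℚ) + 2) * (a + 2) *
          ((c0 * w0 0 + c1 * w1 0) * ((A + 1) * (a + 1))) =
          ((c + 3) * (c + 2) * (c + 1)) * ((A : ℚ) + 2) * (a + 2) * (9 / 8 * Y 1) := by
        rw [zero_add] at h0
        linear_combination -h0
      exact mul_left_cancel₀ (mul_ne_zero (mul_ne_zero hC hA2) ha2) e
    | succ m ih =>
      have ih := ih (by omega)
      rw [Finset.sum_range_succ _ (m + 1), Finset.sum_range_succ _ (m + 1)]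
      have e : c0 * (∑ k ∈ Finset.range (m + 1), w0 k * tt A a c k +
            w0 ((m + 1 : ℕ) : ℚ) * tt A a c (m + 1)) +
          c1 * (∑ k ∈ Finset.range (m + 1), w1 k * tt (A + 2) (a + 2) (c + 3) k +
            w1 ((m + 1 : ℕ) : ℚ) * tt (A + 2) (a + 2) (c + 3) (m + 1)) =
          (c0 * ∑ k ∈ Finset.range (m + 1), w0 k * tt A a c k +
            c1 * ∑ k ∈ Finset.range (m + 1), w1 k * tt (A + 2) (a + 2) (c + 3) k) +
          (c0 * w0 ((m + 1 : ℕ) : ℚ) * tt A a c (m + 1) +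
            c1 * w1 ((m + 1 : ℕ) : ℚ) * tt (A + 2) (a + 2) (c + 3) (m + 1)) := by ring
      rw [e, ih]
      set M : ℚ := ((m + 1 : ℕ) : ℚ) with hM
      have hMm : (m : ℚ) = M - 1 := by rw [hM]; push_cast; ring
      have hmA : M ≤ A := by rw [hM]; exact_mod_cast hm
      have d1 : (A : ℚ) + 2 - M ≠ 0 := by linarith
      have d2 : (A : ℚ) + 1 - M ≠ 0 := by linarith
      have d3 : a + 2 - M ≠ 0 := ha (m + 1) (by omega)
      have d4 : a + 1 - M ≠ 0 := ha' (m + 1) (by omega)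
      have d6 : M - 1 - c ≠ 0 := by rw [← hMm]; exact hc m (by omega)
      have d7 : M ≠ 0 := by rw [hM]; positivity
      have hr := tt_ratio A a c (m + 1) (fun i hi => hc i (by omega)) (fun i hi => hc' i (by omega))
      rw [← hM] at hr
      have hm' := h M
      have hts : tt A a c (m + 1) = tt A a c m * (9 * (M - 1 - A) * (M - 1 - a) /
          (8 * (M - 1 - c) * M)) := by
        rw [tt_succ, hMm]
        ring_nf
      have hts' : tt A a c m * (9 / 8 * Y ((m : ℚ) + 1)) / ((A + 1 - (m : ℚ)) * (a + 1 - m)) =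
          tt A a c (m + 1) * (M * (M - 1 - c) * Y M) /
            ((A + 2 - M) * (A + 1 - M) * (a + 2 - M) * (a + 1 - M)) := by
        rw [hts, hMm, sub_add_cancel]
        have e1 : (A : ℚ) + 1 - (M - 1) = A + 2 - M := by ring
        have e2 : a + 1 - (M - 1) = a + 2 - M := by ring
        have e3 : M - 1 - (A : ℚ) = -(A + 1 - M) := by ring
        have e4 : M - 1 - a = -(a + 1 - M) := by ring
        rw [e1, e2, e3, e4]
        field_simp
      rw [hts']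
      exact step_alg d1 d2 d3 d4 hC (hr.trans (mul_assoc _ _ _)) (by rw [hm']; ring)
  -- the last two terms
  have hA := key A le_rfl
  rw [Finset.sum_range_succ _ (A + 2), Finset.sum_range_succ _ (A + 1)]
  have hcA : c - A ≠ 0 := by
    intro h0; apply hc A (by omega); linarith
  have hr := tt_ratio A a c A (fun i hi => hc i (by omega)) (fun i hi => hc' i (by omega))
  have g1 : a + 1 - A ≠ 0 := ha' A (by omega)
  have g2 : a + 2 - A ≠ 0 := ha A (by omega)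
  have e3 : c + 3 - A ≠ 0 := by
    intro h0; apply hc' A (by omega); linarith
  have e2 : c + 2 - A ≠ 0 := by
    intro h0; apply hc' (A + 1) (by omega); push_cast; linarith
  have hm1 := h (A + 1)
  have hm2 := h (A + 2)
  have hend := end_alg (T := tt A a c A) (T' := tt (A + 2) (a + 2) (c + 3) A)
    (C := (c + 3) * (c + 2) * (c + 1)) (PP := ((A : ℚ) + 2) * (A + 1) * (a + 2) * (a + 1))
    (A1 := (A : ℚ) + 1) (A2 := (A : ℚ) + 2) (g := a + 1 - A) (g2 := a + 2 - A) (e0 := c - A)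
    (e1 := c + 1 - A) (e2 := c + 2 - A) (e3 := c + 3 - A) (em := c - 1 - A) (y1 := Y (A + 1))
    (y2 := Y (A + 2)) (s1 := c1 * w1 (A + 1)) (s2 := c1 * w1 (A + 2))
    hA1 hA2 g1 g2 hcA e2 e3 hc2 hC (by rw [← hr]; ring)
    (by
      have e : (A : ℚ) + 1 + 1 = A + 2 := by ring
      rw [e] at hm1
      linear_combination hm1)
    (by linear_combination hm2)
  have ht1 : tt (A + 2) (a + 2) (c + 3) (A + 1) =
      -(9 * 2 * (a + 2 - A) / (8 * (c + 3 - A) * (A + 1))) * tt (A + 2) (a + 2) (c + 3) A := by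
    rw [tt_succ]
    have h1 : (A : ℚ) - (c + 3) = -(c + 3 - A) := by ring
    have h2 : (A : ℚ) - (a + 2) = -(a + 2 - A) := by ring
    have h3 : (A : ℚ) - (A + 2) = -2 := by ring
    rw [h1, h2, h3]
    field_simp
  have ht2 : tt (A + 2) (a + 2) (c + 3) (A + 2) =
      -(9 * (a + 1 - A) / (8 * (c + 2 - A) * (A + 2))) *
        tt (A + 2) (a + 2) (c + 3) (A + 1) := by
    rw [tt_succ (A + 2) (a + 2) (c + 3) (A + 1)]
    push_cast
    have h1 : (A : ℚ) + 1 - (c + 3) = -(c + 2 - A) := by ring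
    have h2 : (A : ℚ) + 1 - (a + 2) = -(a + 1 - A) := by ring
    have h3 : (A : ℚ) + 1 - (A + 2) = -1 := by ring
    have h4 : (A : ℚ) + 1 + 1 = A + 2 := by ring
    rw [h1, h2, h3, h4]
    field_simp
  rw [ht2, ht1]
  push_cast
  have hA' : c0 * ∑ k ∈ Finset.range (A + 1), w0 k * tt A a c k +
      c1 * ∑ k ∈ Finset.range (A + 1), w1 k * tt (A + 2) (a + 2) (c + 3) k =
      tt A a c A * (9 / 8 * Y (A + 1)) / (a + 1 - A) := by
    rw [hA]
    have : (A : ℚ) + 1 - A = 1 := by ring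
    rw [this, one_mul]
  linear_combination hA' + hend

end Pool.Agent.helper90.Tri
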