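import Pool.Agent.helper90.Tri.Units

/-!
The combination of the values: `2 H - K = b` and `b M = p`.
-/

namespace Pool.Agent.helper90.Tri

open Finset

variable {p : ℕ} [hp : Fact p.Prime]

theorem sq_eq_zero_of_p_mul {x : ZMod (p ^ 2)} (h : (p : ZMod (p ^ 2)) * x = 0) : x * x = 0 := by
  have : NeZero (p ^ 2) := ⟨pow_ne_zero 2 hp.out.ne_zero⟩
  have h1 : ((x.val : ℕ) : ZMod (p ^ 2)) = x := ZMod.natCast_zmod_val x
  have h2 : ((p * x.val : ℕ) : ZMod (p ^ 2)) = 0 := by
    push_cast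
    rw [h1]
    exact h
  rw [ZMod.natCast_eq_zero_iff] at h2
  have h3 : p ∣ x.val :=
    Nat.dvd_of_mul_dvd_mul_left hp.out.pos ((dvd_of_eq (pow_two p).symm).trans h2)
  obtain ⟨c, hc⟩ := h3
  rw [← h1, hc]
  push_cast
  linear_combination ((c : ZMod (p ^ 2)) * c) * psq (p := p)

theorem combine {R : Type*} [CommRing R] {P s t e J L A6 A3lo A3hi OH OL b T h k m : R}
    (hsq : ∀ x : R, P * x = 0 → x * x = 0)
    (he : e * e = 1) (h64 : P * s ^ 6 = P) (hOL : s * OL = L)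
    (hb : b * J = s * OH)
    (hP1 : s ^ 2 * t * A3hi * J = e * A6 ^ 2) (hP2 : s ^ 2 * A3lo ^ 3 = e * t ^ 3 * L * OH ^ 2)
    (hA6 : P * A6 = P * (e * s * t * J))
    (hA3lo : P * A3lo = P * (e * t * L))
    (hA3hi : P * A3hi = P * (e * t * J))
    (hOH : P * OH = P * (e * s * L))
    (hT : P * T = P * (s * t * J))
    (hh : h * (s ^ 3 * A6) = e * A3lo)
    (hk : k * (s ^ 10 * A3lo * A3hi) = t ^ 2 * OL * OH)
    (hm : m * (s ^ 10 * A3lo * A3hi) = P * A6 * T)
    (us : IsUnit s) (ut : IsUnit t) (uJ : IsUnit J) (uA3lo : IsUnit A3lo) (uA3hi : IsUnit A3hi)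
    (ub : IsUnit b) :
    2 * h - (k - m) = b + m ∧ b * m = P := by
  have ue : IsUnit e := IsUnit.of_mul_eq_one e he
  have h1 : h ^ 2 = b * k := by
    have uU : IsUnit (J * s ^ 10 * A3lo * A3hi * t) :=
      ((((uJ.mul (us.pow 10)).mul uA3lo).mul uA3hi).mul ut)
    apply uU.mul_right_cancel
    have e1 : h ^ 2 * (J * s ^ 10 * A3lo * A3hi * t) = t ^ 3 * L * OH ^ 2 := by
      calc h ^ 2 * (J * s ^ 10 * A3lo * A3hi * t)
          = h ^ 2 * s ^ 8 * A3lo * (s ^ 2 * t * A3hi * J) := by ring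
        _ = (h * (s ^ 3 * A6)) ^ 2 * (s ^ 2 * A3lo * e) := by rw [hP1]; ring
        _ = (e * e) * e * (s ^ 2 * A3lo ^ 3) := by rw [hh]; ring
        _ = (e * e) * (e * e) * (t ^ 3 * L * OH ^ 2) := by rw [hP2]; ring
        _ = _ := by rw [he, one_mul, one_mul]
    have e2 : b * k * (J * s ^ 10 * A3lo * A3hi * t) = t ^ 3 * L * OH ^ 2 := by
      calc b * k * (J * s ^ 10 * A3lo * A3hi * t)
          = (b * J) * (k * (s ^ 10 * A3lo * A3hi)) * t := by ring
        _ = t ^ 3 * (s * OL) * OH ^ 2 := by rw [hb, hk]; ring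
        _ = _ := by rw [hOL]
    rw [e1, e2]
  have h2 : P * h = P * b := by
    have uV : IsUnit (s ^ 4 * t * J * e) := (((us.pow 4).mul ut).mul uJ).mul ue
    apply uV.mul_right_cancel
    have e1 : P * h * (s ^ 4 * t * J * e) = P * (t * L) := by
      calc P * h * (s ^ 4 * t * J * e) = h * s ^ 3 * (P * (e * s * t * J)) := by ring
        _ = (h * (s ^ 3 * A6)) * P := by rw [← hA6]; ring
        _ = e * (P * A3lo) := by rw [hh]; ring
        _ = (e * e) * (P * (t * L)) := by rw [hA3lo]; ring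
        _ = _ := by rw [he, one_mul]
    have e2 : P * b * (s ^ 4 * t * J * e) = P * (t * L) := by
      calc P * b * (s ^ 4 * t * J * e) = P * s ^ 4 * t * e * (b * J) := by ring
        _ = s ^ 5 * t * e * (P * OH) := by rw [hb]; ring
        _ = (P * s ^ 6) * t * (e * e) * L := by rw [hOH]; ring
        _ = _ := by rw [h64, he]; ring
    rw [e1, e2]
  have h3 : b * m = P := by
    have uW : IsUnit (s ^ 10 * A3lo * A3hi * J) := ((((us.pow 10)).mul uA3lo).mul uA3hi).mul uJ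
    apply uW.mul_right_cancel
    have e1 : b * m * (s ^ 10 * A3lo * A3hi * J) = P * (s ^ 4 * t ^ 2 * L * J ^ 2) := by
      calc b * m * (s ^ 10 * A3lo * A3hi * J) = (b * J) * (m * (s ^ 10 * A3lo * A3hi)) := by ring
        _ = s * (P * OH) * A6 * T := by rw [hb, hm]; ring
        _ = s * (e * s * L) * (P * A6) * T := by rw [hOH]; ring
        _ = s * (e * s * L) * (e * s * t * J) * (P * T) := by rw [hA6]; ring
        _ = (e * e) * (P * (s ^ 4 * t ^ 2 * L * J ^ 2)) := by rw [hT]; ring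
        _ = _ := by rw [he, one_mul]
    have e2 : P * (s ^ 10 * A3lo * A3hi * J) = P * (s ^ 4 * t ^ 2 * L * J ^ 2) := by
      calc P * (s ^ 10 * A3lo * A3hi * J) = s ^ 10 * (P * A3lo) * A3hi * J := by ring
        _ = s ^ 10 * (e * t * L) * (P * A3hi) * J := by rw [hA3lo]; ring
        _ = (P * s ^ 6) * s ^ 4 * (e * e) * t ^ 2 * L * J ^ 2 := by rw [hA3hi]; ring
        _ = _ := by rw [h64, he]; ring
    rw [e1, e2]
  have h4 : (h - b) * (h - b) = 0 := by
    apply hsq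
    linear_combination h2
  have h5 : 2 * h - k = b := by
    apply ub.mul_left_cancel
    linear_combination -h4 + h1
  exact ⟨by linear_combination h5, h3⟩

section vals

variable {j : ℕ} (hj : p = 6 * j + 1)

include hj

theorem uA6 : IsUnit ((A6 j : ℕ) : ZMod (p ^ 2)) :=
  isUnit_cast_prod _ _ fun i hi => by omega

theorem uA3lo : IsUnit ((A3lo j : ℕ) : ZMod (p ^ 2)) :=
  isUnit_cast_prod _ _ fun i hi => by omega

theorem uA3hi : IsUnit ((A3hi j : ℕ) : ZMod (p ^ 2)) :=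
  isUnit_cast_prod _ _ fun i hi => by omega

theorem uJ : IsUnit ((j.factorial : ℕ) : ZMod (p ^ 2)) := by
  apply isUnit_natCast
  rw [hp.out.dvd_factorial]
  omega

theorem u2 : IsUnit (2 : ZMod (p ^ 2)) := by
  have hj1 : 1 ≤ j := by
    rcases Nat.eq_zero_or_pos j with h | h
    · subst h
      exact absurd hp.out (by rw [hj]; decide)
    · exact h
  have := isUnit_natCast p (m := 2) (fun hd => by
    have := Nat.le_of_dvd (by norm_num) hd
    omega)
  simpa using this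

theorem u3 : IsUnit (3 : ZMod (p ^ 2)) := by
  have hj1 : 1 ≤ j := by
    rcases Nat.eq_zero_or_pos j with h | h
    · subst h
      exact absurd hp.out (by rw [hj]; decide)
    · exact h
  have := isUnit_natCast p (m := 3) (fun hd => by
    have := Nat.le_of_dvd (by norm_num) hd
    omega)
  simpa using this

theorem ub : IsUnit (((4 * j).choose (2 * j) : ℕ) : ZMod (p ^ 2)) := by
  apply isUnit_natCast
  intro hd
  have h1 := Nat.choose_mul_factorial_mul_factorial (n := 4 * j) (k := 2 * j) (by omega)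
  have h2 : p ∣ (4 * j).factorial := by
    rw [← h1]
    exact (hd.mul_right _).mul_right _
  rw [hp.out.dvd_factorial] at h2
  omega

omit hp hj in
theorem Hq_mul : Hq j * ((8 ^ j * A6 j : ℕ) : ℚ) = (((-1) ^ j * (A3lo j : ℤ) : ℤ) : ℚ) := by
  unfold Hq A6 A3lo
  push_cast
  induction j with
  | zero => simp
  | succ j ih =>
    rw [prod_range_succ, prod_range_succ, prod_range_succ, pow_succ, pow_succ]
    have h1 : (6 * (j : ℚ) + 1) ≠ 0 := by positivity
    have e : ∀ U V : ℚ, U * (-(3 * (j : ℚ) + 1) / (8 * (6 * (j : ℚ) + 1))) *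
        (8 ^ j * 8 * (V * (6 * (j : ℚ) + 1))) = (U * (8 ^ j * V)) * (-(3 * (j : ℚ) + 1)) := by
      intro U V
      field_simp
    rw [e, ih]
    ring

omit hp hj in
theorem prod_two (f : ℕ → ℕ) : ∏ i ∈ range (2 * j), f i =
    (∏ i ∈ range j, f i) * ∏ i ∈ range j, f (j + i) := by
  rw [two_mul, prod_range_add]

omit hp hj in
theorem Kq_aux (n : ℕ) : Kq n * ((32 ^ n * ∏ i ∈ range n, (3 * i + 1) : ℕ) : ℚ) =
    (((-3) ^ n * (∏ i ∈ range n, (2 * i + 1) : ℕ) : ℤ) : ℚ) := by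
  unfold Kq
  push_cast
  induction n with
  | zero => simp
  | succ j ih =>
    rw [prod_range_succ, prod_range_succ, prod_range_succ, pow_succ, pow_succ]
    have h1 : (3 * (j : ℚ) + 1) ≠ 0 := by positivity
    have e : ∀ U V : ℚ, U * (-(3 * (2 * (j : ℚ) + 1)) / (32 * (3 * (j : ℚ) + 1))) *
        (32 ^ j * 32 * (V * (3 * (j : ℚ) + 1))) =
        (U * (32 ^ j * V)) * (-(3 * (2 * (j : ℚ) + 1))) := by
      intro U V
      field_simp
    rw [e, ih]
    ring

omit hp hj in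
theorem Mq_aux (n : ℕ) : Mq n * ((32 ^ n * ∏ i ∈ range n, (3 * i + 1) : ℕ) : ℚ) =
    (((-1) ^ n * (∏ i ∈ range n, (6 * i + 7) : ℕ) : ℤ) : ℚ) := by
  unfold Mq
  push_cast
  induction n with
  | zero => simp
  | succ j ih =>
    rw [prod_range_succ, prod_range_succ, prod_range_succ, pow_succ, pow_succ]
    have h1 : (3 * (j : ℚ) + 1) ≠ 0 := by positivity
    have e : ∀ U V : ℚ, U * (-(6 * (j : ℚ) + 7) / (32 * (3 * (j : ℚ) + 1))) *
        (32 ^ j * 32 * (V * (3 * (j : ℚ) + 1))) =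
        (U * (32 ^ j * V)) * (-(6 * (j : ℚ) + 7)) := by
      intro U V
      field_simp
    rw [e, ih]
    ring

omit hp in
theorem topProd : ∏ i ∈ range (2 * j), (6 * i + 7) =
    p * A6 j * ∏ i ∈ range j, (6 * (j + i) + 7) := by
  rw [prod_two]
  congr 1
  unfold A6
  have h1 : ∏ i ∈ range j, (6 * i + 7) = ∏ i ∈ range j, (6 * (i + 1) + 1) := by
    apply Finset.prod_congr rfl
    intro i _
    ring
  rw [h1, mul_comm, hj, ← prod_range_succ (fun i => 6 * i + 1) j, prod_range_succ']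
  simp

omit hj in
theorem Rd.of_mul {q : ℚ} {a : ℤ} {d : ℕ} (hd : (d : ℚ) ≠ 0) (hu : IsUnit (d : ZMod (p ^ 2)))
    (h : q * d = a) : Rd p q ((a : ZMod (p ^ 2)) * (d : ZMod (p ^ 2))⁻¹) := by
  rw [eq_div_of_mul_eq hd h]
  exact (Rd.intCast _).div (Rd.natCast _) hu

/-- the value of the weighted sum modulo `p ^ 2` -/
theorem S_value : ∃ m : ZMod (p ^ 2),
    Rd p (∑ k ∈ range p, ((k : ℚ) + 2) / 24 ^ k *
      (((3 * k).factorial : ℚ) / (k.factorial : ℚ) ^ 3))
      ((((4 * j).choose (2 * j) : ℕ) : ZMod (p ^ 2)) + m) ∧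
    (((4 * j).choose (2 * j) : ℕ) : ZMod (p ^ 2)) * m = (p : ZMod (p ^ 2)) := by
  have hj1 : 1 ≤ j := by
    rcases Nat.eq_zero_or_pos j with h | h
    · subst h
      exact absurd hp.out (by rw [hj]; decide)
    · exact h
  have u2 := u2 hj
  have u3 := u3 hj
  have uA6 := uA6 hj
  have uA3lo := uA3lo hj
  have uA3hi := uA3hi hj
  have uJ := uJ hj
  -- denominators
  have u8 : IsUnit ((8 ^ j * A6 j : ℕ) : ZMod (p ^ 2)) := by
    push_cast
    refine IsUnit.mul ?_ uA6
    have : (8 : ZMod (p ^ 2)) = 2 ^ 3 := by norm_num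
    rw [this]
    exact (u2.pow 3).pow j
  have u32 : IsUnit ((32 ^ (2 * j) * ∏ i ∈ range (2 * j), (3 * i + 1) : ℕ) : ZMod (p ^ 2)) := by
    rw [prod_two]
    push_cast
    have uA3lo' := uA3lo
    have uA3hi' := uA3hi
    unfold A3lo at uA3lo'
    unfold A3hi at uA3hi'
    push_cast at uA3lo' uA3hi'
    refine IsUnit.mul ?_ (uA3lo'.mul uA3hi')
    have : (32 : ZMod (p ^ 2)) = 2 ^ 5 := by norm_num
    rw [this]
    exact (u2.pow 5).pow _
  have n8 : ((8 ^ j * A6 j : ℕ) : ℚ) ≠ 0 := by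
    have : 0 < A6 j := Finset.prod_pos fun i _ => by omega
    positivity
  have n32 : ((32 ^ (2 * j) * ∏ i ∈ range (2 * j), (3 * i + 1) : ℕ) : ℚ) ≠ 0 := by
    have : 0 < ∏ i ∈ range (2 * j), (3 * i + 1) := Finset.prod_pos fun i _ => by omega
    positivity
  have rH := Rd.of_mul n8 u8 Hq_mul
  have rK := Rd.of_mul n32 u32 (Kq_aux (2 * j))
  have rM := Rd.of_mul n32 u32 (Mq_aux (2 * j))
  have hS := rd_S j hj rH rK rM
  have hh0 := ZMod.mul_inv_of_unit _ u8
  have hk0 := ZMod.mul_inv_of_unit _ u32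
  set iH := ((8 ^ j * A6 j : ℕ) : ZMod (p ^ 2))⁻¹ with hiH
  set iK := ((32 ^ (2 * j) * ∏ i ∈ range (2 * j), (3 * i + 1) : ℕ) : ZMod (p ^ 2))⁻¹ with hiK
  have hc := combine (P := (p : ZMod (p ^ 2))) (s := 2 ^ j) (t := 3 ^ j) (e := (-1) ^ j) (J := (j.factorial : ℕ))
    (L := (LL j : ℕ)) (A6 := (A6 j : ℕ)) (A3lo := (A3lo j : ℕ)) (A3hi := (A3hi j : ℕ))
    (OH := (OddHi j : ℕ)) (OL := (OddLo j : ℕ)) (b := (((4 * j).choose (2 * j) : ℕ) : ZMod (p ^ 2)))
    (T := ((∏ i ∈ range j, (6 * (j + i) + 7) : ℕ) : ZMod (p ^ 2)))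
    (h := (((-1) ^ j * (A3lo j : ℤ) : ℤ) : ZMod (p ^ 2)) * iH)
    (k := (((-3) ^ (2 * j) * (∏ i ∈ range (2 * j), (2 * i + 1) : ℕ) : ℤ) : ZMod (p ^ 2)) * iK)
    (m := (((-1) ^ (2 * j) * (∏ i ∈ range (2 * j), (6 * i + 7) : ℕ) : ℤ) : ZMod (p ^ 2)) * iK)
    (fun x hx => sq_eq_zero_of_p_mul hx)
    (by rw [← mul_pow]; simp)
    (by
      have := p64 hj
      rw [← pow_mul, mul_comm j 6, pow_mul]
      norm_num
      exact this)
    (by
      have := congrArg (Nat.cast : ℕ → ZMod (p ^ 2)) (two_pow_mul_oddLo j)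
      rw [Nat.cast_mul, Nat.cast_pow] at this
      exact_mod_cast this)
    (by
      have := congrArg (Nat.cast : ℕ → ZMod (p ^ 2)) (b_mul_fac j)
      rw [Nat.cast_mul, Nat.cast_mul, Nat.cast_pow] at this
      exact_mod_cast this)
    (by
      rw [← P1 hj, ← pow_mul, mul_comm j 2, pow_mul, ← mul_pow]
      norm_num)
    (by
      have := P2 hj
      have e1 : ((2 : ZMod (p ^ 2)) ^ j) ^ 2 = 4 ^ j := by
        rw [← pow_mul, mul_comm j 2, pow_mul]; norm_num
      have e2 : (-1 : ZMod (p ^ 2)) ^ j * (3 ^ j) ^ 3 = (-27) ^ j := by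
        rw [← pow_mul, mul_comm j 3, pow_mul, ← mul_pow]; norm_num
      rw [e1, e2]
      exact this)
    (by
      have := pA6 hj
      rw [← mul_pow, ← mul_pow]
      norm_num
      exact this)
    (by
      have := pA3lo hj
      rw [← mul_pow]
      norm_num
      exact this)
    (by
      have := pA3hi hj
      rw [← mul_pow]
      norm_num
      exact this)
    (by
      have := pOddHi hj
      rw [← mul_pow]
      norm_num
      exact this)
    (by
      have := pTop hj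
      rw [← mul_pow]
      norm_num
      norm_num at this
      exact this)
    (by
      have e8 : ((8 ^ j * A6 j : ℕ) : ZMod (p ^ 2)) = (2 ^ j) ^ 3 * (A6 j : ℕ) := by
        push_cast
        rw [← pow_mul, mul_comm j 3, pow_mul]
        norm_num
      rw [← e8]
      push_cast at hh0 ⊢
      linear_combination ((-1) ^ j * (A3lo j : ZMod (p ^ 2))) * hh0)
    (by
      have e32 : ((32 ^ (2 * j) * ∏ i ∈ range (2 * j), (3 * i + 1) : ℕ) : ZMod (p ^ 2)) =
          (2 ^ j) ^ 10 * (A3lo j : ℕ) * (A3hi j : ℕ) := by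
        rw [prod_two, ← pow_mul, mul_comm j 10, pow_mul]
        unfold A3lo A3hi
        push_cast
        rw [pow_mul]
        norm_num
        ring
      rw [← e32]
      have e33 : (((-3) ^ (2 * j) * (∏ i ∈ range (2 * j), (2 * i + 1) : ℕ) : ℤ) : ZMod (p ^ 2)) =
          (3 ^ j) ^ 2 * (OddLo j : ℕ) * (OddHi j : ℕ) := by
        rw [prod_two, ← pow_mul, mul_comm j 2, pow_mul, pow_mul]
        unfold OddLo OddHi
        push_cast
        norm_num
        ring
      rw [← e33, mul_assoc]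
      rw [mul_comm iK]
      rw [hk0, mul_one])
    (by
      have e32 : ((32 ^ (2 * j) * ∏ i ∈ range (2 * j), (3 * i + 1) : ℕ) : ZMod (p ^ 2)) =
          (2 ^ j) ^ 10 * (A3lo j : ℕ) * (A3hi j : ℕ) := by
        rw [prod_two, ← pow_mul, mul_comm j 10, pow_mul]
        unfold A3lo A3hi
        push_cast
        rw [pow_mul]
        norm_num
        ring
      rw [← e32]
      rw [mul_assoc, mul_comm iK, hk0, mul_one, topProd hj]
      rw [pow_mul]
      push_cast
      norm_num)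
    (u2.pow j) (u3.pow j) uJ uA3lo uA3hi (ub hj)
  refine ⟨_, ?_, hc.2⟩
  rw [← hc.1]
  exact hS

end vals

end Pool.Agent.helper90.Tri
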