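import Pool.Agent.helper90.Tri.Rd

/-!
Interpolation in the parameter: the deformed sums are affine in `s` modulo `p ^ 2`.
-/

namespace Pool.Agent.helper90.Tri

open Finset

variable {p : ℕ} [hp : Fact p.Prime]

omit hp in
theorem psq : (p : ZMod (p ^ 2)) * p = 0 := by
  have : ((p ^ 2 : ℕ) : ZMod (p ^ 2)) = 0 := ZMod.natCast_self _
  rw [← this]; push_cast; ring

/-- affine functions of `s * p` -/
def Aff (p : ℕ) (g : ℕ → ZMod (p ^ 2)) : Prop :=
  ∃ u v : ZMod (p ^ (2 : ℕ)), ∀ s : ℕ, g s = u + v * (s * p)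

omit hp in
theorem Aff.const (c : ZMod (p ^ 2)) : Aff p fun _ => c := ⟨c, 0, fun s => by ring⟩

omit hp in
theorem Aff.lin (c : ZMod (p ^ (2 : ℕ))) : Aff p fun s : ℕ => c - (s : ZMod (p ^ (2 : ℕ))) * p :=
  ⟨c, -1, fun s => by ring⟩

omit hp in
theorem Aff.add {g h : ℕ → ZMod (p ^ 2)} (hg : Aff p g) (hh : Aff p h) :
    Aff p fun s => g s + h s := by
  obtain ⟨u, v, h1⟩ := hg
  obtain ⟨u', v', h2⟩ := hh
  exact ⟨u + u', v + v', fun s => by dsimp only; rw [h1, h2]; ring⟩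

omit hp in
theorem Aff.mul {g h : ℕ → ZMod (p ^ 2)} (hg : Aff p g) (hh : Aff p h) :
    Aff p fun s => g s * h s := by
  obtain ⟨u, v, h1⟩ := hg
  obtain ⟨u', v', h2⟩ := hh
  exact ⟨u * u', u * v' + u' * v, fun s => by
    dsimp only
    rw [h1, h2]; linear_combination (v * v' * s * s) * psq (p := p)⟩

omit hp in
theorem Aff.sum {ι : Type*} (t : Finset ι) {g : ι → ℕ → ZMod (p ^ 2)}
    (h : ∀ i ∈ t, Aff p (g i)) : Aff p fun s => ∑ i ∈ t, g i s := by
  classical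
  induction t using Finset.induction_on with
  | empty => simpa using Aff.const (p := p) 0
  | insert a t ha ih =>
    simp only [Finset.sum_insert ha]
    exact (h a (Finset.mem_insert_self a t)).add (ih fun i hi => h i (Finset.mem_insert_of_mem hi))

omit hp in
theorem Aff.prod {ι : Type*} (t : Finset ι) {g : ι → ℕ → ZMod (p ^ 2)}
    (h : ∀ i ∈ t, Aff p (g i)) : Aff p fun s => ∏ i ∈ t, g i s := by
  classical
  induction t using Finset.induction_on with
  | empty => simpa using Aff.const (p := p) 1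
  | insert a t ha ih =>
    simp only [Finset.prod_insert ha]
    exact (h a (Finset.mem_insert_self a t)).mul (ih fun i hi => h i (Finset.mem_insert_of_mem hi))

theorem inv_eq_of_mul {x y : ZMod (p ^ 2)} (h : x * y = 1) : x⁻¹ = y := by
  have hx : IsUnit x := IsUnit.of_mul_eq_one y h
  calc x⁻¹ = x⁻¹ * (x * y) := by rw [h, mul_one]
    _ = y := by rw [← mul_assoc, ZMod.inv_mul_of_unit x hx, one_mul]

theorem Aff.inv {g : ℕ → ZMod (p ^ 2)} (hg : Aff p g) (hu : IsUnit (g 0)) :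
    Aff p fun s => (g s)⁻¹ := by
  obtain ⟨u, v, h1⟩ := hg
  have h0 : g 0 = u := by rw [h1]; simp
  rw [h0] at hu
  have hu1 : u * u⁻¹ = 1 := ZMod.mul_inv_of_unit u hu
  refine ⟨u⁻¹, -(u⁻¹ * u⁻¹ * v), fun s => inv_eq_of_mul ?_⟩
  rw [h1]
  linear_combination (1 - u⁻¹ * v * (s * p)) * hu1 - (v * v * u⁻¹ * u⁻¹ * s * s) * psq (p := p)

theorem Aff.isUnit {g : ℕ → ZMod (p ^ 2)} (hg : Aff p g) (hu : IsUnit (g 0)) (s : ℕ) :
    IsUnit (g s) := by
  obtain ⟨u, v, h1⟩ := hg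
  have h0 : g 0 = u := by rw [h1]; simp
  rw [h0] at hu
  have hu1 : u * u⁻¹ = 1 := ZMod.mul_inv_of_unit u hu
  refine IsUnit.of_mul_eq_one (u⁻¹ - (u⁻¹ * u⁻¹ * v) * (s * p)) ?_
  rw [h1]
  linear_combination (1 - u⁻¹ * v * (s * p)) * hu1 - (v * v * u⁻¹ * u⁻¹ * s * s) * psq (p := p)

omit hp in
theorem Aff.interp {g : ℕ → ZMod (p ^ 2)} (hg : Aff p g) : g 0 = 2 * g 1 - g 2 := by
  obtain ⟨u, v, h1⟩ := hg
  rw [h1, h1, h1]
  push_cast
  ring

/-- the deformed terms -/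
def fQ (p s k : ℕ) : ℚ := ∏ i ∈ range k,
  ((3 * i + 1 - s * p) * (3 * i + 2 - s * p) / (4 * (i + 1) * (2 * i + 2 - s * p)))

/-- their reductions -/
noncomputable def fR (p s k : ℕ) : ZMod (p ^ 2) := ∏ i ∈ range k,
  ((3 * (i : ZMod (p ^ 2)) + 1 - s * p) * (3 * i + 2 - s * p) *
    (4 * ((i : ZMod (p ^ 2)) + 1) * (2 * i + 2 - s * p))⁻¹)

theorem two_ne (h2 : p ≠ 2) (i : ℕ) (hi : i + 1 < p) : ¬ p ∣ 2 * i + 2 := by
  intro hd
  have h3 : p ∣ 2 * (i + 1) := by rwa [mul_add, mul_one]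
  rcases hp.out.dvd_mul.mp h3 with h4 | h4
  · exact h2 ((Nat.prime_dvd_prime_iff_eq hp.out Nat.prime_two).mp h4)
  · exact absurd (Nat.le_of_dvd (by omega) h4) (by omega)

theorem four_ne (h2 : p ≠ 2) (i : ℕ) (hi : i + 1 < p) : ¬ p ∣ 4 * (i + 1) := by
  intro hd
  have h3 : p ∣ 2 * (2 * i + 2) := by
    have : 2 * (2 * i + 2) = 4 * (i + 1) := by ring
    rwa [this]
  rcases hp.out.dvd_mul.mp h3 with h4 | h4
  · exact h2 ((Nat.prime_dvd_prime_iff_eq hp.out Nat.prime_two).mp h4)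
  · exact two_ne h2 i hi h4

omit hp in
theorem aff_den (i : ℕ) : Aff p fun s : ℕ =>
    (4 * ((i : ZMod (p ^ 2)) + 1) * (2 * i + 2 - (s : ZMod (p ^ 2)) * p)) :=
  (Aff.const _).mul (Aff.lin _)

theorem unit_den (h2 : p ≠ 2) (i : ℕ) (hi : i + 1 < p) (s : ℕ) :
    IsUnit (4 * ((i : ZMod (p ^ 2)) + 1) * (2 * i + 2 - s * p)) := by
  apply (aff_den i).isUnit
  have h1 := isUnit_natCast p (four_ne h2 i hi)
  have h2 := isUnit_natCast p (two_ne h2 i hi)
  push_cast at h1 h2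
  simpa using h1.mul h2

theorem aff_f (h2 : p ≠ 2) (k : ℕ) (hk : k < p) : Aff p fun s => fR p s k := by
  unfold fR
  apply Aff.prod
  intro i hi
  rw [Finset.mem_range] at hi
  exact ((Aff.lin _).mul (Aff.lin _)).mul ((aff_den i).inv (unit_den h2 i (by omega) 0))

theorem rd_f (h2 : p ≠ 2) (s k : ℕ) (hk : k < p) : Rd p (fQ p s k) (fR p s k) := by
  unfold fQ fR
  apply Rd.prod
  intro i hi
  rw [Finset.mem_range] at hi
  have e1 : Rd p (3 * i + 1 - s * p : ℚ) (3 * i + 1 - s * p) := by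
    have := Rd.intCast (p := p) (3 * i + 1 - s * p)
    push_cast at this
    exact this
  have e2 : Rd p (3 * i + 2 - s * p : ℚ) (3 * i + 2 - s * p) := by
    have := Rd.intCast (p := p) (3 * i + 2 - s * p)
    push_cast at this
    exact this
  have e3 : Rd p (4 * (i + 1) * (2 * i + 2 - s * p) : ℚ) (4 * (i + 1) * (2 * i + 2 - s * p)) := by
    have := Rd.intCast (p := p) (4 * (i + 1) * (2 * i + 2 - s * p))
    push_cast at this
    exact this
  exact (e1.mul e2).div e3 (unit_den h2 i (by omega) s)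

/-- the deformed sums -/
def EQ (p s : ℕ) : ℚ := ∑ k ∈ range p, ((k : ℚ) + 2 - s * p) * fQ p s k

/-- their reductions -/
noncomputable def ER (p s : ℕ) : ZMod (p ^ 2) :=
  ∑ k ∈ range p, ((k : ZMod (p ^ 2)) + 2 - s * p) * fR p s k

theorem rd_E (h2 : p ≠ 2) (s : ℕ) : Rd p (EQ p s) (ER p s) := by
  apply Rd.sum
  intro k hk
  rw [Finset.mem_range] at hk
  refine Rd.mul ?_ (rd_f h2 s k hk)
  have := Rd.intCast (p := p) (k + 2 - s * p)
  push_cast at this
  exact this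

theorem ER_interp (h2 : p ≠ 2) : ER p 0 = 2 * ER p 1 - ER p 2 := by
  have h : Aff p fun s => ER p s := by
    unfold ER
    apply Aff.sum
    intro k hk
    rw [Finset.mem_range] at hk
    exact (Aff.lin _).mul (aff_f h2 k hk)
  exact h.interp

omit hp in
theorem fQ_zero (k : ℕ) : fQ p 0 k = ((3 * k).factorial : ℚ) / ((k.factorial : ℚ) ^ 3 * 24 ^ k) := by
  induction k with
  | zero => simp [fQ]
  | succ k ih =>
    have h1 : fQ p 0 (k + 1) = fQ p 0 k *
        ((3 * k + 1) * (3 * k + 2) / (4 * (k + 1) * (2 * k + 2))) := by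
      unfold fQ
      rw [Finset.prod_range_succ]
      simp
    rw [h1, ih]
    have h2 : 3 * (k + 1) = 3 * k + 1 + 1 + 1 := by ring
    rw [h2, Nat.factorial_succ, Nat.factorial_succ, Nat.factorial_succ, Nat.factorial_succ]
    push_cast
    have h3 : (k.factorial : ℚ) ≠ 0 := by exact_mod_cast k.factorial_ne_zero
    have h4 : (k : ℚ) + 1 ≠ 0 := by positivity
    field_simp
    ring

omit hp in
theorem EQ_zero : EQ p 0 = ∑ k ∈ range p, ((k : ℚ) + 2) / 24 ^ k *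
    (((3 * k).factorial : ℚ) / (k.factorial : ℚ) ^ 3) := by
  unfold EQ
  apply Finset.sum_congr rfl
  intro k _
  rw [fQ_zero]
  have h3 : (k.factorial : ℚ) ≠ 0 := by exact_mod_cast k.factorial_ne_zero
  push_cast
  field_simp
  ring

omit hp in
theorem fQ_one (j : ℕ) (hj : p = 6 * j + 1) (k : ℕ) :
    fQ p 1 k = tt (2 * j : ℕ) (2 * (j : ℚ) - 1 / 3) (3 * j - 1 / 2) k := by
  induction k with
  | zero => simp [fQ, tt_zero]
  | succ k ih =>
    have h1 : fQ p 1 (k + 1) = fQ p 1 k *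
        ((3 * k + 1 - p) * (3 * k + 2 - p) / (4 * (k + 1) * (2 * k + 2 - p))) := by
      unfold fQ
      rw [Finset.prod_range_succ]
      simp
    rw [h1, ih, tt_succ, hj]
    congr 1
    push_cast
    have e1 : (9 * ((k : ℚ) - 2 * j) * (k - (2 * j - 1 / 3))) =
      (3 * k + 1 - (6 * j + 1)) * (3 * k + 2 - (6 * j + 1)) := by ring
    have e2 : (8 * ((k : ℚ) - (3 * j - 1 / 2)) * (k + 1)) =
      4 * (k + 1) * (2 * k + 2 - (6 * j + 1)) := by ring
    rw [e1, e2]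

omit hp in
theorem fQ_two (n : ℕ) (hn : p = 3 * n + 1) (k : ℕ) :
    fQ p 2 k = tt (2 * n : ℕ) (2 * (n : ℚ) + 1 / 3) (3 * n) k := by
  induction k with
  | zero => simp [fQ, tt_zero]
  | succ k ih =>
    have h1 : fQ p 2 (k + 1) = fQ p 2 k *
        ((3 * k + 1 - 2 * p) * (3 * k + 2 - 2 * p) / (4 * (k + 1) * (2 * k + 2 - 2 * p))) := by
      unfold fQ
      rw [Finset.prod_range_succ]
      simp
    rw [h1, ih, tt_succ, hn]
    congr 1
    push_cast
    have e1 : (9 * ((k : ℚ) - 2 * n) * (k - (2 * n + 1 / 3))) =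
      (3 * k + 1 - 2 * (3 * n + 1)) * (3 * k + 2 - 2 * (3 * n + 1)) := by ring
    have e2 : (8 * ((k : ℚ) - 3 * n) * (k + 1)) =
      4 * (k + 1) * (2 * k + 2 - 2 * (3 * n + 1)) := by ring
    rw [e1, e2]

theorem tt_eq_zero (A : ℕ) (a c : ℚ) (k : ℕ) (hk : A < k) : tt A a c k = 0 := by
  induction k with
  | zero => omega
  | succ k ih =>
    rw [tt_succ]
    rcases Nat.lt_or_ge A k with h | h
    · rw [ih h, zero_mul]
    · have : k = A := by omega
      rw [this]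
      simp

theorem sum_trunc (A N : ℕ) (h : A < N) (a c : ℚ) (w : ℕ → ℚ) :
    ∑ k ∈ range N, w k * tt A a c k = ∑ k ∈ range (A + 1), w k * tt A a c k := by
  symm
  apply Finset.sum_subset
  · intro k hk
    rw [Finset.mem_range] at hk ⊢
    omega
  · intro k _ hk
    rw [Finset.mem_range, not_lt] at hk
    rw [tt_eq_zero A a c k (by omega), mul_zero]

/-- the value at `s = 1` -/
def Hq (j : ℕ) : ℚ := ∏ i ∈ Finset.range j, (-(3 * (i : ℚ) + 1) / (8 * (6 * (i : ℚ) + 1)))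

/-- the first value at `s = 2` -/
def Kq (n : ℕ) : ℚ := ∏ i ∈ Finset.range n, (-(3 * (2 * (i : ℚ) + 1)) / (32 * (3 * (i : ℚ) + 1)))

/-- the second value at `s = 2`, with opposite sign -/
def Mq (n : ℕ) : ℚ := ∏ i ∈ Finset.range n, (-(6 * (i : ℚ) + 7) / (32 * (3 * (i : ℚ) + 1)))

omit hp in
theorem EQ_one (j : ℕ) (hj : p = 6 * j + 1) : EQ p 1 = Hq j := by
  unfold EQ Hq
  rw [← sumH j]
  have h0 := sumD j
  have h1 : ∀ k ∈ range p, ((k : ℚ) + 2 - (1 : ℕ) * p) * fQ p 1 k =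
      ((k : ℚ) + 2 - p) * tt (2 * j : ℕ) (2 * (j : ℚ) - 1 / 3) (3 * j - 1 / 2) k := by
    intro k _
    rw [fQ_one j hj]
    push_cast
    ring
  rw [Finset.sum_congr rfl h1, sum_trunc (2 * j) p (by omega)]
  rw [← add_zero (∑ k ∈ range (2 * j + 1), tt (2 * j : ℕ) (2 * (j : ℚ) - 1 / 3) (3 * j - 1 / 2) k),
    ← h0, ← Finset.sum_add_distrib]
  apply Finset.sum_congr rfl
  intro k _
  rw [hj]
  push_cast
  ring

omit hp in
theorem EQ_two (n : ℕ) (hn2 : 2 ≤ n) (hn : p = 3 * n + 1) : EQ p 2 = Kq n - Mq n := by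
  unfold EQ Kq Mq
  rw [← sumK n hn2, sub_eq_add_neg, ← sumM n hn2]
  have h1 : ∀ k ∈ range p, ((k : ℚ) + 2 - (2 : ℕ) * p) * fQ p 2 k =
      ((k : ℚ) + 2 - 2 * p) * tt (2 * n : ℕ) (2 * (n : ℚ) + 1 / 3) (3 * n) k := by
    intro k _
    rw [fQ_two n hn]
    push_cast
    ring
  rw [Finset.sum_congr rfl h1, sum_trunc (2 * n) p (by omega), ← Finset.sum_add_distrib]
  apply Finset.sum_congr rfl
  intro k _
  rw [hn]
  push_cast
  ring

/-- the weighted sum reduces to `2 H - K + M` -/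
theorem rd_S (j : ℕ) (hj : p = 6 * j + 1) {h k m : ZMod (p ^ 2)} (hh : Rd p (Hq j) h)
    (hk : Rd p (Kq (2 * j)) k) (hm : Rd p (Mq (2 * j)) m) :
    Rd p (∑ k ∈ range p, ((k : ℚ) + 2) / 24 ^ k *
      (((3 * k).factorial : ℚ) / (k.factorial : ℚ) ^ 3)) (2 * h - (k - m)) := by
  have hj1 : 1 ≤ j := by
    rcases Nat.eq_zero_or_pos j with h | h
    · subst h
      exact absurd hp.out (by rw [hj]; decide)
    · exact h
  have h2 : p ≠ 2 := by omega
  have e1 : ER p 1 = h := by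
    have := rd_E h2 1
    rw [EQ_one j hj] at this
    exact this.unique hh
  have e2 : ER p 2 = k - m := by
    have := rd_E h2 2
    rw [EQ_two (2 * j) (by omega) (by omega)] at this
    exact this.unique (hk.sub hm)
  rw [← EQ_zero (p := p), ← e1, ← e2, ← ER_interp h2]
  exact rd_E h2 0

end Pool.Agent.helper90.Tri
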