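import Pool.Agent.helper90.Tri.Teich

/-!
Cubic Jacobi sums: the integers `N0, N1, N2`.
-/

namespace Pool.Agent.helper90.Tri

open Finset

variable {p : ℕ} [hp : Fact p.Prime] {n : ℕ}

/-- number of `t` with `(t (1 - t)) ^ n = z` -/
def cnt (p n : ℕ) [Fact p.Prime] (z : ZMod p) : ℕ :=
  (univ.filter fun t : ZMod p => (t * (1 - t)) ^ n = z).card

theorem decomp {S : Type*} [CommRing S] {z : ZMod p} (hz : IsPrimitiveRoot z 3) (hn0 : 0 < n)
    (c : ZMod p → S) (v : S) (hc0 : c 0 = 0)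
    (h : ∀ u : ZMod p, u ≠ 0 → ∃ r < 3, u ^ n = z ^ r ∧ c u = v ^ r) :
    ∑ t : ZMod p, c (t * (1 - t)) = (cnt p n 1 : S) + cnt p n z * v + cnt p n (z ^ 2) * v ^ 2 := by
  have hz1 : z ≠ 1 := hz.ne_one (by norm_num)
  have hz0 : z ≠ 0 := hz.ne_zero (by norm_num)
  have hz2 : z ^ 2 ≠ 1 := hz.pow_ne_one_of_pos_of_lt (by norm_num) (by norm_num)
  have hz3 : z ^ 2 ≠ z := by
    intro h0
    apply hz1
    apply mul_left_cancel₀ hz0
    rw [mul_one, ← pow_two, h0]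
  have key : ∀ u : ZMod p, c u = (if u ^ n = 1 then 1 else 0) + (if u ^ n = z then 1 else 0) * v +
      (if u ^ n = z ^ 2 then 1 else 0) * v ^ 2 := by
    intro u
    by_cases hu : u = 0
    · rw [hu, hc0, zero_pow hn0.ne', if_neg zero_ne_one, if_neg hz0.symm,
        if_neg (pow_ne_zero 2 hz0).symm]
      ring
    · obtain ⟨r, hr, h1, h2⟩ := h u hu
      rw [h1, h2]
      interval_cases r
      · rw [pow_zero z, pow_zero v, if_pos rfl, if_neg hz1.symm, if_neg hz2.symm]; ring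
      · rw [pow_one z, pow_one v, if_neg hz1, if_pos rfl, if_neg hz3.symm]; ring
      · rw [if_neg hz2, if_neg hz3, if_pos rfl]; ring
  rw [Finset.sum_congr rfl fun t _ => key (t * (1 - t)), Finset.sum_add_distrib,
    Finset.sum_add_distrib, ← Finset.sum_mul, ← Finset.sum_mul, Finset.sum_boole, Finset.sum_boole,
    Finset.sum_boole]
  rfl

/-- elements of `ℤ[ω]` -/
theorem mem_adjoin {w : ℂ} (hw : w ^ 2 + w + 1 = 0) {z : ℂ} (hz : z ∈ Algebra.adjoin ℤ {w}) :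
    ∃ c d : ℤ, z = c + d * w := by
  induction hz using Algebra.adjoin_induction with
  | mem x hx =>
    rw [Set.mem_singleton_iff] at hx
    exact ⟨0, 1, by rw [hx]; push_cast; ring⟩
  | algebraMap r => exact ⟨r, 0, by simp⟩
  | add x y _ _ hx hy =>
    obtain ⟨c, d, rfl⟩ := hx
    obtain ⟨c', d', rfl⟩ := hy
    exact ⟨c + c', d + d', by push_cast; ring⟩
  | mul x y _ _ hx hy =>
    obtain ⟨c, d, rfl⟩ := hx
    obtain ⟨c', d', rfl⟩ := hy
    refine ⟨c * c' - d * d', c * d' + d * c' - d * d', ?_⟩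
    push_cast
    linear_combination (d * d' : ℂ) * hw

theorem indep {w : ℂ} (hw : w ^ 2 + w + 1 = 0) {α β : ℤ} (h : (α : ℂ) + β * w = 0) :
    α = 0 ∧ β = 0 := by
  have h1 : ((α ^ 2 - α * β + β ^ 2 : ℤ) : ℂ) = 0 := by
    push_cast
    linear_combination (α + β * (-1 - w)) * h + (β ^ 2 : ℂ) * hw
  have h2 : α ^ 2 - α * β + β ^ 2 = 0 := by exact_mod_cast h1
  constructor <;> nlinarith [sq_nonneg (2 * α - β), sq_nonneg (2 * β - α), sq_nonneg α, sq_nonneg β]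

theorem main_jac (hn : p = 3 * n + 1) (hn0 : 0 < n) :
    ∃ z : ZMod p, IsPrimitiveRoot z 3 ∧ (∀ u : ZMod p, u ≠ 0 → ∃ r < 3, u ^ n = z ^ r) ∧
      ((cnt p n 1 : ℤ) ^ 2 + (cnt p n z : ℤ) ^ 2 + (cnt p n (z ^ 2) : ℤ) ^ 2 -
        cnt p n 1 * cnt p n z - cnt p n 1 * cnt p n (z ^ 2) - cnt p n z * cnt p n (z ^ 2) = p) ∧
      ∃ d e : ℤ, (cnt p n 1 : ℤ) - cnt p n (z ^ 2) = 3 * d - 1 ∧
        (cnt p n z : ℤ) - cnt p n (z ^ 2) = 3 * e := by
  obtain ⟨g, hg⟩ := IsCyclic.exists_generator (α := (ZMod p)ˣ)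
  have hcard : Fintype.card (ZMod p)ˣ = 3 * n := by
    rw [ZMod.card_units, hn]; omega
  have hog : orderOf g = 3 * n := by
    rw [orderOf_eq_card_of_forall_mem_zpowers hg, Nat.card_eq_fintype_card, hcard]
  have hz : IsPrimitiveRoot ((g ^ n : (ZMod p)ˣ) : ZMod p) 3 := by
    rw [IsPrimitiveRoot.coe_units_iff]
    have h1 : IsPrimitiveRoot g (3 * n) := by
      rw [← hog]; exact IsPrimitiveRoot.orderOf g
    exact h1.pow (by omega) (mul_comm 3 n)
  set z : ZMod p := ((g ^ n : (ZMod p)ˣ) : ZMod p) with hzdef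
  have hprim : IsPrimitiveRoot (Complex.exp (2 * Real.pi * Complex.I / (3 : ℕ))) 3 :=
    Complex.isPrimitiveRoot_exp 3 (by norm_num)
  obtain ⟨χ, hχ⟩ := MulChar.exists_mulChar_orderOf (ZMod p) (R := ℂ) (n := 3)
    (by rw [ZMod.card, hn]; exact ⟨n, by omega⟩) hprim
  set w : ℂ := χ (g : ZMod p) with hwdef
  have hχ3 : χ ^ 3 = 1 := by rw [← hχ]; exact pow_orderOf_eq_one χ
  have hχ1 : χ ≠ 1 := by
    intro h
    rw [h, orderOf_one] at hχ
    norm_num at hχ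
  have hw3 : w ^ 3 = 1 := by
    rw [hwdef, ← MulChar.pow_apply' χ (by norm_num), hχ3, MulChar.one_apply_coe]
  have hw1 : w ≠ 1 := by
    intro h
    apply hχ1
    rw [MulChar.eq_iff hg]
    rw [MulChar.one_apply_coe]
    exact h
  have hw : w ^ 2 + w + 1 = 0 := by
    have : (w - 1) * (w ^ 2 + w + 1) = 0 := by linear_combination hw3
    exact (mul_eq_zero.mp this).resolve_left (sub_ne_zero.mpr hw1)
  have hwp : IsPrimitiveRoot w 3 := by
    rw [IsPrimitiveRoot.iff_orderOf]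
    exact orderOf_eq_prime hw3 hw1
  -- values
  have hval : ∀ u : ZMod p, u ≠ 0 → ∃ r < 3, u ^ n = z ^ r ∧ χ u = w ^ r := by
    intro u hu
    have hmem := hg (Units.mk0 u hu)
    rw [← mem_powers_iff_mem_zpowers, Submonoid.mem_powers_iff] at hmem
    obtain ⟨k, hk⟩ := hmem
    refine ⟨k % 3, Nat.mod_lt _ (by norm_num), ?_, ?_⟩
    · have h1 : u = ((g ^ k : (ZMod p)ˣ) : ZMod p) := by rw [hk]; rfl
      have hz3 : z ^ 3 = 1 := hz.pow_eq_one
      have h2 : u ^ n = z ^ k := by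
        rw [h1, hzdef]
        push_cast
        rw [← pow_mul, ← pow_mul, mul_comm]
      rw [h2]
      conv_lhs => rw [← Nat.div_add_mod k 3, pow_add, pow_mul, hz3, one_pow, one_mul]
    · have h1 : u = ((g ^ k : (ZMod p)ˣ) : ZMod p) := by rw [hk]; rfl
      have h2 : χ u = w ^ k := by
        rw [h1]
        push_cast
        rw [map_pow]
      rw [h2]
      conv_lhs => rw [← Nat.div_add_mod k 3, pow_add, pow_mul, hw3, one_pow, one_mul]
  have hχinv : χ⁻¹ = χ ^ 2 := by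
    rw [inv_eq_iff_mul_eq_one, ← pow_succ', hχ3]
  -- the two Jacobi sums
  have hJ : jacobiSum χ χ = (cnt p n 1 : ℂ) + cnt p n z * w + cnt p n (z ^ 2) * w ^ 2 := by
    rw [← decomp hz hn0 (fun u => χ u) w (MulChar.map_zero χ) hval]
    unfold jacobiSum
    apply Finset.sum_congr rfl
    intro t _
    rw [map_mul]
  have hJ' : jacobiSum χ⁻¹ χ⁻¹ =
      (cnt p n 1 : ℂ) + cnt p n z * w ^ 2 + cnt p n (z ^ 2) * (w ^ 2) ^ 2 := by
    rw [← decomp hz hn0 (fun u => (χ ^ 2) u) (w ^ 2) (MulChar.map_zero _) (by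
      intro u hu
      obtain ⟨r, hr, h1, h2⟩ := hval u hu
      refine ⟨r, hr, h1, ?_⟩
      rw [MulChar.pow_apply' χ (by norm_num), h2, ← pow_mul, ← pow_mul, mul_comm])]
    unfold jacobiSum
    apply Finset.sum_congr rfl
    intro t _
    rw [hχinv, map_mul]
  have hprod := jacobiSum_mul_jacobiSum_inv (F := ZMod p) (F' := ℂ) (by
      rw [ringChar.eq_zero, ZMod.ringChar_zmod_n]
      exact hp.out.ne_zero.symm) hχ1 hχ1 (by
      intro h
      have h1 : χ ^ 2 = 1 := by rw [pow_two]; exact h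
      have h2 := orderOf_dvd_of_pow_eq_one h1
      rw [hχ] at h2
      norm_num at h2)
  rw [hJ, hJ', ZMod.card] at hprod
  obtain ⟨y, hy, hy'⟩ := exists_jacobiSum_eq_neg_one_add (F := ZMod p) (R := ℂ) (n := 3)
    (by norm_num) hχ3 hχ3 (by rw [ZMod.card, hn]; exact ⟨n, by omega⟩) hwp
  obtain ⟨c, d, rfl⟩ := mem_adjoin hw hy
  rw [hJ] at hy'
  refine ⟨z, hz, fun u hu => ?_, ?_, ?_⟩
  · obtain ⟨r, hr, h1, _⟩ := hval u hu
    exact ⟨r, hr, h1⟩
  · have h4 : (((cnt p n 1 : ℤ) ^ 2 + (cnt p n z : ℤ) ^ 2 + (cnt p n (z ^ 2) : ℤ) ^ 2 -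
        cnt p n 1 * cnt p n z - cnt p n 1 * cnt p n (z ^ 2) - cnt p n z * cnt p n (z ^ 2) : ℤ) : ℂ)
        = ((p : ℤ) : ℂ) := by
      push_cast
      rw [← hprod]
      set A := (cnt p n 1 : ℂ)
      set B := (cnt p n z : ℂ)
      set C := (cnt p n (z ^ 2) : ℂ)
      have hw4 : w ^ 4 = w := by linear_combination w * hw3
      have e : (A + B * w + C * w ^ 2) * (A + B * w ^ 2 + C * (w ^ 2) ^ 2) =
        A ^ 2 + (A * B) * (w + w ^ 2) + (A * C) * (w ^ 2 + w ^ 4) + B ^ 2 * w ^ 3 +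
          (B * C) * (w ^ 4 + w * w ^ 4) + C ^ 2 * (w ^ 3) ^ 2 := by ring
      rw [e, hw4, hw3]
      linear_combination (-(A * B) - A * C - B * C) * hw
    exact_mod_cast h4
  · have h5 := indep hw (α := (cnt p n 1 : ℤ) - cnt p n (z ^ 2) - (3 * d - 1))
      (β := (cnt p n z : ℤ) - cnt p n (z ^ 2) - (3 * d - 3 * c)) (by
        push_cast
        set A := (cnt p n 1 : ℂ)
        set B := (cnt p n z : ℂ)
        set C := (cnt p n (z ^ 2) : ℂ)
        linear_combination hy' + (-C + (c : ℂ) + d * w - 3 * d) * hw)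
    exact ⟨d, d - c, by linarith [h5.1], by linarith [h5.2]⟩

end Pool.Agent.helper90.Tri
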