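import Pool.Agent.helper90.Tri.Jac
import Pool.Agent.helper90.Tri.Combine

/-!
The congruence `S(p) ≡ x (mod p ^ 2)`.
-/

namespace Pool.Agent.helper90.Tri

open Finset

variable {p : ℕ} [hp : Fact p.Prime]

theorem rel {n : ℕ} (hn : p = 3 * n + 1) (hn0 : 0 < n) (hne : Even n) (hn2 : p ≠ 2) :
    ∃ a c : ℤ, 4 * (p : ℤ) = a ^ 2 + 27 * c ^ 2 ∧ a % 3 = 1 ∧
      (((2 * n).choose n : ℕ) : ZMod (p ^ 2)) ^ 2 +
        (a : ZMod (p ^ 2)) * (((2 * n).choose n : ℕ) : ZMod (p ^ 2)) + (p : ZMod (p ^ 2)) = 0 := by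
  obtain ⟨z, hz, hval, hN, d, e, hd, he⟩ := main_jac hn hn0
  set N0 := cnt p n 1
  set N1 := cnt p n z
  set N2 := cnt p n (z ^ 2)
  refine ⟨2 * N0 - N1 - N2, e, ?_, ?_, ?_⟩
  · rw [← hN]
    linear_combination (3 * ((N1 : ℤ) - N2) + 9 * e) * he
  · have : (2 * (N0 : ℤ) - N1 - N2) = 3 * (2 * d - e - 1) + 1 := by linarith
    rw [this]
    omega
  · have hw3 : T z ^ 3 = 1 := by rw [← map_pow, hz.pow_eq_one, map_one]
    have hu : IsUnit (T z - 1) := by
      apply isUnit_of_redp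
      rw [map_sub, redp_T, map_one]
      exact sub_ne_zero.mpr (hz.ne_one (by norm_num))
    have hw : T z ^ 2 + T z + 1 = 0 := by
      apply (IsUnit.mul_right_eq_zero hu).mp
      linear_combination hw3
    have hJ := J_eq hn hn0 hne hn2
    have hdec := decomp hz hn0 (fun u => T u ^ (2 * n)) (T z ^ 2)
      (by rw [T_zero, zero_pow (by omega)]) (by
        intro u hu
        obtain ⟨r, hr, h1⟩ := hval u hu
        refine ⟨r, hr, h1, ?_⟩
        rw [mul_comm 2 n, pow_mul, ← map_pow, h1, map_pow, ← pow_mul, ← pow_mul, mul_comm])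
    have hsum : ∑ t : ZMod p, T (t * (1 - t)) ^ (2 * n) =
        ∑ t : ZMod p, T t ^ (2 * n) * T (1 - t) ^ (2 * n) := by
      apply Finset.sum_congr rfl
      intro t _
      rw [map_mul, mul_pow]
    rw [hsum, hJ] at hdec
    have hN' : ((N0 : ZMod (p ^ 2)) ^ 2 + (N1 : ZMod (p ^ 2)) ^ 2 + (N2 : ZMod (p ^ 2)) ^ 2 -
        N0 * N1 - N0 * N2 - N1 * N2) = (p : ZMod (p ^ 2)) := by
      have := congrArg (Int.cast : ℤ → ZMod (p ^ 2)) hN
      push_cast at this
      exact this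
    rw [← hN']
    set b := (((2 * n).choose n : ℕ) : ZMod (p ^ 2))
    have hb : b = -((N0 : ZMod (p ^ 2)) + N1 * T z ^ 2 + N2 * (T z ^ 2) ^ 2) := by
      rw [← neg_eq_iff_eq_neg]; exact hdec
    have hw4 : (T z ^ 2) ^ 2 = T z := by linear_combination T z * hw3
    rw [hw4] at hb
    rw [hb]
    push_cast
    have hw4' : T z ^ 4 = T z := by linear_combination T z * hw3
    linear_combination ((N1 : ZMod (p ^ 2)) ^ 2 * (T z ^ 2 - T z + 1) +
      (N2 : ZMod (p ^ 2)) ^ 2 + (N1 : ZMod (p ^ 2)) * N2 * (2 * T z - 1)) * hw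

theorem uniq_aux {x y a c : ℤ} (h1 : 4 * (p : ℤ) = x ^ 2 + 27 * y ^ 2)
    (h2 : 4 * (p : ℤ) = a ^ 2 + 27 * c ^ 2) (hd : (p : ℤ) ∣ x * c - a * y) : x = a ∨ x = -a := by
  have hp0 : (0 : ℤ) < p := by exact_mod_cast hp.out.pos
  obtain ⟨k, hk⟩ := hd
  have h3 : 16 * (p : ℤ) ^ 2 = (x * a + 27 * y * c) ^ 2 + 27 * (x * c - a * y) ^ 2 := by
    linear_combination (4 * (p : ℤ)) * h2 + (a ^ 2 + 27 * c ^ 2) * h1
  rw [hk] at h3
  have hk0 : k = 0 := by
    by_contra hk0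
    have hk1 : 1 ≤ k ^ 2 := by
      have : 0 < k ^ 2 := by positivity
      omega
    nlinarith [sq_nonneg (x * a + 27 * y * c), mul_pos hp0 hp0]
  rw [hk0, mul_zero] at hk
  rw [hk0, mul_zero] at h3
  have h4 : (x * a + 27 * y * c - 4 * p) * (x * a + 27 * y * c + 4 * p) = 0 := by
    linear_combination -h3
  have h5 : x * (x * a + 27 * y * c) = 4 * p * a := by
    linear_combination (27 * y) * hk - a * h1
  rcases mul_eq_zero.mp h4 with h | h
  · left
    have h6 : x * a + 27 * y * c = 4 * p := by linarith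
    rw [h6] at h5
    have h7 : (4 * (p : ℤ)) * x = 4 * p * a := by linear_combination h5
    exact mul_left_cancel₀ (by positivity) h7
  · right
    have h6 : x * a + 27 * y * c = -(4 * p) := by linarith
    rw [h6] at h5
    have h7 : (4 * (p : ℤ)) * x = 4 * p * (-a) := by linear_combination -h5
    exact mul_left_cancel₀ (by positivity) h7

theorem uniq {x y a c : ℤ} (h1 : 4 * (p : ℤ) = x ^ 2 + 27 * y ^ 2)
    (h2 : 4 * (p : ℤ) = a ^ 2 + 27 * c ^ 2) : x = a ∨ x = -a := by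
  have h3 : (p : ℤ) ∣ (x * c - a * y) * (x * c + a * y) := by
    refine ⟨4 * (c ^ 2 - y ^ 2), ?_⟩
    linear_combination (c ^ 2) * (-h1) + y ^ 2 * h2
  rcases (Nat.prime_iff_prime_int.mp hp.out).dvd_or_dvd h3 with h | h
  · exact uniq_aux h1 h2 h
  · apply uniq_aux (y := -y) (c := c) (x := x) (a := a) _ h2 _
    · rw [h1]; ring
    · have : x * c - a * -y = x * c + a * y := by ring
      rw [this]; exact h

theorem main (h3 : p % 3 = 1) {x y : ℤ} (hxy : 4 * (p : ℤ) = x ^ 2 + 27 * y ^ 2)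
    (hx : x % 3 = 2) : ∃ r : ℚ, ¬ p ∣ r.den ∧
    ∑ k ∈ range p, ((k : ℚ) + 2) / 24 ^ k * (((3 * k).factorial : ℚ) / (k.factorial : ℚ) ^ 3) - x
      = (p : ℚ) ^ 2 * r := by
  have hp2 : p ≠ 2 := by omega
  have hodd : p % 2 = 1 := (Nat.Prime.mod_two_eq_one_iff_ne_two hp.out).mpr hp2
  obtain ⟨j, hj⟩ : ∃ j, p = 6 * j + 1 := ⟨p / 6, by omega⟩
  have hj1 : 0 < j := by
    rcases Nat.eq_zero_or_pos j with h | h
    · subst h
      exact absurd hp.out (by rw [hj]; decide)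
    · exact h
  obtain ⟨m, hm, hbm⟩ := S_value hj
  obtain ⟨a, c, hac, ha, hrel⟩ := rel (p := p) (n := 2 * j) (by omega) (by omega)
    (even_two_mul j) hp2
  have hxa : x = -a := by
    rcases uniq hxy hac with h | h
    · omega
    · exact h
  have e1 : 2 * (2 * j) = 4 * j := by ring
  rw [e1] at hrel
  have hub := ub hj
  set b := (((4 * j).choose (2 * j) : ℕ) : ZMod (p ^ 2))
  have hmx : b + m = ((x : ℤ) : ZMod (p ^ 2)) := by
    apply hub.mul_left_cancel
    rw [hxa]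
    push_cast
    linear_combination hbm + hrel
  rw [hmx] at hm
  exact hm.exists_eq

end Pool.Agent.helper90.Tri
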