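import Pool.Agent.helper90.Tri.Red

/-!
The relation: the `p`-integral rational `q` reduces to `r` modulo `p ^ 2`.
-/

namespace Pool.Agent.helper90.Tri

variable {p : ℕ} [hp : Fact p.Prime]

/-- `q` is `p`-integral and reduces to `r` -/
def Rd (p : ℕ) [Fact p.Prime] (q : ℚ) (r : ZMod (p ^ 2)) : Prop :=
  ∃ h : q ∈ Zp p, red p ⟨q, h⟩ = r

theorem Rd.unique {q : ℚ} {r r' : ZMod (p ^ 2)} (h : Rd p q r) (h' : Rd p q r') : r = r' := by
  obtain ⟨h1, h2⟩ := h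
  obtain ⟨h3, h4⟩ := h'
  rw [← h2, ← h4]

theorem Rd.add {q q' : ℚ} {r r' : ZMod (p ^ 2)} (h : Rd p q r) (h' : Rd p q' r') :
    Rd p (q + q') (r + r') := by
  obtain ⟨h1, rfl⟩ := h
  obtain ⟨h3, rfl⟩ := h'
  exact ⟨(Zp p).add_mem h1 h3, by rw [← map_add]; rfl⟩

theorem Rd.mul {q q' : ℚ} {r r' : ZMod (p ^ 2)} (h : Rd p q r) (h' : Rd p q' r') :
    Rd p (q * q') (r * r') := by
  obtain ⟨h1, rfl⟩ := h
  obtain ⟨h3, rfl⟩ := h'
  exact ⟨(Zp p).mul_mem h1 h3, by rw [← map_mul]; rfl⟩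

theorem Rd.neg {q : ℚ} {r : ZMod (p ^ 2)} (h : Rd p q r) : Rd p (-q) (-r) := by
  obtain ⟨h1, rfl⟩ := h
  exact ⟨(Zp p).neg_mem h1, by rw [← map_neg]; rfl⟩

theorem Rd.sub {q q' : ℚ} {r r' : ZMod (p ^ 2)} (h : Rd p q r) (h' : Rd p q' r') :
    Rd p (q - q') (r - r') := by
  rw [sub_eq_add_neg, sub_eq_add_neg]
  exact h.add h'.neg

theorem Rd.zero : Rd p 0 0 := ⟨(Zp p).zero_mem, (red p).map_zero⟩

theorem Rd.one : Rd p 1 1 := ⟨(Zp p).one_mem, (red p).map_one⟩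

theorem Rd.intCast (m : ℤ) : Rd p (m : ℚ) (m : ZMod (p ^ 2)) :=
  ⟨intCast_mem (Zp p) m, by
    have : (⟨(m : ℚ), intCast_mem (Zp p) m⟩ : Zp p) = ((m : ℤ) : Zp p) := rfl
    rw [this, map_intCast]⟩

theorem Rd.natCast (m : ℕ) : Rd p (m : ℚ) (m : ZMod (p ^ 2)) := by
  have := Rd.intCast (p := p) (m : ℤ)
  simpa using this

theorem Rd.sum {ι : Type*} (s : Finset ι) {q : ι → ℚ} {r : ι → ZMod (p ^ 2)}
    (h : ∀ i ∈ s, Rd p (q i) (r i)) : Rd p (∑ i ∈ s, q i) (∑ i ∈ s, r i) := by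
  classical
  induction s using Finset.induction_on with
  | empty => simpa using Rd.zero
  | insert a s ha ih =>
    rw [Finset.sum_insert ha, Finset.sum_insert ha]
    exact (h a (Finset.mem_insert_self a s)).add (ih fun i hi => h i (Finset.mem_insert_of_mem hi))

theorem Rd.prod {ι : Type*} (s : Finset ι) {q : ι → ℚ} {r : ι → ZMod (p ^ 2)}
    (h : ∀ i ∈ s, Rd p (q i) (r i)) : Rd p (∏ i ∈ s, q i) (∏ i ∈ s, r i) := by
  classical
  induction s using Finset.induction_on with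
  | empty => simpa using Rd.one
  | insert a s ha ih =>
    rw [Finset.prod_insert ha, Finset.prod_insert ha]
    exact (h a (Finset.mem_insert_self a s)).mul (ih fun i hi => h i (Finset.mem_insert_of_mem hi))

theorem not_isUnit_of_dvd {m : ℤ} (h : (p : ℤ) ∣ m) : ¬ IsUnit (m : ZMod (p ^ 2)) := by
  intro hu
  obtain ⟨c, rfl⟩ := h
  push_cast at hu
  have h1 := isUnit_of_mul_isUnit_left hu
  have h2 : ((p : ℕ) : ZMod (p ^ 2)) = 0 := by
    have h3 : ((p : ℕ) : ZMod (p ^ 2)) * (p : ℕ) = 0 := by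
      have : ((p ^ 2 : ℕ) : ZMod (p ^ 2)) = 0 := ZMod.natCast_self _
      rw [← this]; push_cast; ring
    exact (IsUnit.mul_right_eq_zero h1).mp h3
  rw [ZMod.natCast_eq_zero_iff] at h2
  have h4 := Nat.le_of_dvd hp.out.pos h2
  have h5 := hp.out.two_le
  nlinarith

theorem Rd.inv {q : ℚ} {r : ZMod (p ^ 2)} (h : Rd p q r) (hu : IsUnit r) : Rd p q⁻¹ r⁻¹ := by
  obtain ⟨h1, h2⟩ := h
  have h3 : r * (q.den : ZMod (p ^ 2)) = (q.num : ZMod (p ^ 2)) := by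
    rw [← h2]; exact redFun_mul_den p h1
  have h4 : IsUnit (q.num : ZMod (p ^ 2)) := by
    rw [← h3]; exact hu.mul (isUnit_den p h1)
  have h5 : ¬ (p : ℤ) ∣ q.num := fun hd => not_isUnit_of_dvd hd h4
  have hq : q ≠ 0 := by
    rintro rfl
    exact h5 (by simp)
  have h6 : q⁻¹ = (q.den : ℚ) / q.num := by
    conv_lhs => rw [← Rat.num_div_den q]
    rw [inv_div]
  have hmem : q⁻¹ ∈ Zp p := by
    intro hd
    apply h5
    have h7 := Rat.den_dvd (q.den : ℤ) q.num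
    rw [Rat.divInt_eq_div] at h7
    push_cast at h7
    rw [← h6] at h7
    exact (Int.natCast_dvd_natCast.mpr hd).trans h7
  refine ⟨hmem, ?_⟩
  have h8 : red p ⟨q⁻¹, hmem⟩ * red p ⟨q, h1⟩ = 1 := by
    rw [← map_mul, ← map_one (red p)]
    congr 1
    apply Subtype.ext
    exact inv_mul_cancel₀ hq
  rw [h2] at h8
  calc red p ⟨q⁻¹, hmem⟩ = red p ⟨q⁻¹, hmem⟩ * (r * r⁻¹) := by
        rw [ZMod.mul_inv_of_unit r hu, mul_one]
    _ = r⁻¹ := by rw [← mul_assoc, h8, one_mul]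

theorem Rd.div {q q' : ℚ} {r r' : ZMod (p ^ 2)} (h : Rd p q r) (h' : Rd p q' r') (hu : IsUnit r') :
    Rd p (q / q') (r * r'⁻¹) := by
  rw [div_eq_mul_inv]
  exact h.mul (h'.inv hu)

theorem Rd.exists_eq {q : ℚ} {m : ℤ} (h : Rd p q (m : ZMod (p ^ 2))) :
    ∃ r : ℚ, ¬ p ∣ r.den ∧ q - m = (p : ℚ) ^ 2 * r := by
  obtain ⟨h1, h2⟩ := (h.sub (Rd.intCast m))
  rw [sub_self] at h2
  obtain ⟨r, hr⟩ := red_eq_zero p h2
  exact ⟨r, r.2, hr⟩

end Pool.Agent.helper90.Tri
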