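import Pool.Agent.helper90.Tri.Values

/-!
Reduction of `p`-integral rationals modulo `p ^ 2`, and interpolation in the parameter.
-/

namespace Pool.Agent.helper90.Tri

variable (p : ℕ) [hp : Fact p.Prime]

/-- the ring of `p`-integral rational numbers -/
def Zp : Subring ℚ where
  carrier := {q | ¬ p ∣ q.den}
  mul_mem' := by
    intro a b ha hb h
    exact ((hp.out.dvd_mul.mp (h.trans (Rat.mul_den_dvd a b))).elim ha hb)
  one_mem' := by
    intro h
    exact hp.out.one_lt.ne' (Nat.dvd_one.mp h)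
  add_mem' := by
    intro a b ha hb h
    exact ((hp.out.dvd_mul.mp (h.trans (Rat.add_den_dvd a b))).elim ha hb)
  zero_mem' := by
    intro h
    exact hp.out.one_lt.ne' (Nat.dvd_one.mp h)
  neg_mem' := by
    intro a ha h
    rw [Rat.neg_den] at h
    exact ha h

theorem mem_Zp {q : ℚ} : q ∈ Zp p ↔ ¬ p ∣ q.den := Iff.rfl

theorem isUnit_natCast {m : ℕ} (h : ¬ p ∣ m) : IsUnit ((m : ℕ) : ZMod (p ^ 2)) := by
  rw [ZMod.isUnit_iff_coprime]
  exact Nat.Coprime.pow_right 2 ((Nat.Prime.coprime_iff_not_dvd hp.out).mpr h).symm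

theorem isUnit_intCast {m : ℤ} (h : ¬ (p : ℤ) ∣ m) : IsUnit ((m : ℤ) : ZMod (p ^ 2)) := by
  have h1 : ¬ p ∣ m.natAbs := by
    intro hd
    exact h (Int.natCast_dvd.mpr hd)
  have h2 := isUnit_natCast p h1
  rcases Int.natAbs_eq m with h3 | h3
  · rw [h3]; simpa using h2
  · rw [h3]
    push_cast
    simpa using h2

theorem isUnit_den {q : ℚ} (h : q ∈ Zp p) : IsUnit ((q.den : ℕ) : ZMod (p ^ 2)) :=
  isUnit_natCast p h

/-- the reduction map -/
noncomputable def redFun (q : ℚ) : ZMod (p ^ 2) := (q.num : ZMod (p ^ 2)) * (q.den : ZMod (p ^ 2))⁻¹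

theorem redFun_mul_den {q : ℚ} (h : q ∈ Zp p) :
    redFun p q * (q.den : ZMod (p ^ 2)) = (q.num : ZMod (p ^ 2)) := by
  unfold redFun
  rw [mul_assoc, ZMod.inv_mul_of_unit _ (isUnit_den p h), mul_one]

theorem redFun_eq {q : ℚ} (h : q ∈ Zp p) {a b : ℤ} (hb : b ≠ 0) (hab : q = a / b) :
    redFun p q * (b : ZMod (p ^ 2)) = (a : ZMod (p ^ 2)) := by
  have h1 : q.num * b = a * q.den := by
    have h2 : (q.num : ℚ) / q.den = a / b := by rw [Rat.num_div_den]; exact hab
    have hd : (q.den : ℚ) ≠ 0 := by exact_mod_cast q.den_nz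
    have hb' : (b : ℚ) ≠ 0 := by exact_mod_cast hb
    rw [div_eq_div_iff hd hb'] at h2
    exact_mod_cast h2
  have h2 : (q.num : ZMod (p ^ 2)) * b = a * (q.den : ZMod (p ^ 2)) := by exact_mod_cast congrArg (Int.cast : ℤ → ZMod (p ^ 2)) h1
  have hu := isUnit_den p h
  apply hu.mul_right_cancel
  rw [mul_right_comm, redFun_mul_den p h]
  exact h2

/-- reduction modulo `p ^ 2` of `p`-integral rational numbers -/
noncomputable def red : Zp p →+* ZMod (p ^ 2) where
  toFun q := redFun p q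
  map_one' := by simp [redFun]
  map_zero' := by simp [redFun]
  map_mul' a b := by
    have ha := isUnit_den p a.2
    have hb := isUnit_den p b.2
    have hda : ((a : ℚ).den : ℚ) ≠ 0 := by exact_mod_cast (a : ℚ).den_nz
    have hdb : ((b : ℚ).den : ℚ) ≠ 0 := by exact_mod_cast (b : ℚ).den_nz
    have h := redFun_eq p (q := ((a * b : Zp p) : ℚ)) (a * b : Zp p).2 (a := (a : ℚ).num * (b : ℚ).num)
      (b := ((a : ℚ).den : ℤ) * ((b : ℚ).den : ℤ))
      (mul_ne_zero (by exact_mod_cast (a : ℚ).den_nz) (by exact_mod_cast (b : ℚ).den_nz))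
      (by
        push_cast
        conv_lhs => rw [← Rat.num_div_den (a : ℚ), ← Rat.num_div_den (b : ℚ)]
        field_simp)
    push_cast at h
    apply (ha.mul hb).mul_right_cancel
    change redFun p ((a : ℚ) * (b : ℚ)) * _ = redFun p (a : ℚ) * redFun p (b : ℚ) * _
    rw [h, ← redFun_mul_den p a.2, ← redFun_mul_den p b.2]
    ring
  map_add' a b := by
    have ha := isUnit_den p a.2
    have hb := isUnit_den p b.2
    have hda : ((a : ℚ).den : ℚ) ≠ 0 := by exact_mod_cast (a : ℚ).den_nz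
    have hdb : ((b : ℚ).den : ℚ) ≠ 0 := by exact_mod_cast (b : ℚ).den_nz
    have h := redFun_eq p (q := ((a + b : Zp p) : ℚ)) (a + b : Zp p).2
      (a := (a : ℚ).num * ((b : ℚ).den : ℤ) + (b : ℚ).num * ((a : ℚ).den : ℤ))
      (b := ((a : ℚ).den : ℤ) * ((b : ℚ).den : ℤ))
      (mul_ne_zero (by exact_mod_cast (a : ℚ).den_nz) (by exact_mod_cast (b : ℚ).den_nz))
      (by
        push_cast
        conv_lhs => rw [← Rat.num_div_den (a : ℚ), ← Rat.num_div_den (b : ℚ)]
        field_simp)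
    push_cast at h
    apply (ha.mul hb).mul_right_cancel
    change redFun p ((a : ℚ) + (b : ℚ)) * _ = (redFun p (a : ℚ) + redFun p (b : ℚ)) * _
    rw [h, ← redFun_mul_den p a.2, ← redFun_mul_den p b.2]
    ring

theorem red_eq_zero {q : Zp p} (h : red p q = 0) : ∃ r : Zp p, (q : ℚ) = (p : ℚ) ^ 2 * r := by
  have h1 : ((q : ℚ).num : ZMod (p ^ 2)) = 0 := by
    rw [← redFun_mul_den p q.2]
    have : redFun p (q : ℚ) = 0 := h
    rw [this, zero_mul]
  rw [ZMod.intCast_zmod_eq_zero_iff_dvd] at h1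
  obtain ⟨c, hc⟩ := h1
  refine ⟨⟨(c : ℚ) / (q : ℚ).den, ?_⟩, ?_⟩
  · intro hd
    apply q.2
    refine hd.trans ?_
    have h2 := Rat.den_dvd c ((q : ℚ).den : ℤ)
    rw [Rat.divInt_eq_div] at h2
    exact_mod_cast h2
  · change (q : ℚ) = (p : ℚ) ^ 2 * ((c : ℚ) / (q : ℚ).den)
    conv_lhs => rw [← Rat.num_div_den (q : ℚ), hc]
    push_cast
    ring

end Pool.Agent.helper90.Tri
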