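import Pool.Agent.helper90.Tri.Units

/-!
Teichmueller representatives modulo `p ^ 2` and the sum `∑ T(t)^(2n) T(1-t)^(2n)`.
-/

namespace Pool.Agent.helper90.Tri

open Finset

variable {p : ℕ} [hp : Fact p.Prime]

theorem neZero_sq : NeZero (p ^ 2) := ⟨pow_ne_zero 2 hp.out.ne_zero⟩

/-- reduction modulo `p` -/
noncomputable def redp (p : ℕ) : ZMod (p ^ 2) →+* ZMod p :=
  ZMod.castHom (dvd_pow_self p two_ne_zero) (ZMod p)

theorem redp_natCast (m : ℕ) : redp p (m : ZMod (p ^ 2)) = (m : ZMod p) := map_natCast _ _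

theorem redp_p : redp p (p : ZMod (p ^ 2)) = 0 := by
  rw [redp_natCast, ZMod.natCast_self]

theorem dvd_of_redp {x : ZMod (p ^ 2)} (h : redp p x = 0) : (p : ZMod (p ^ 2)) ∣ x := by
  have := neZero_sq (p := p)
  have h1 : ((x.val : ℕ) : ZMod (p ^ 2)) = x := ZMod.natCast_zmod_val x
  have h2 : ((x.val : ℕ) : ZMod p) = 0 := by rw [← redp_natCast, h1]; exact h
  rw [ZMod.natCast_eq_zero_iff] at h2
  obtain ⟨c, hc⟩ := h2
  refine ⟨(c : ZMod (p ^ 2)), ?_⟩
  rw [← h1, hc]
  push_cast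
  rfl

theorem p_mul_eq {x y : ZMod (p ^ 2)} (h : redp p x = redp p y) :
    (p : ZMod (p ^ 2)) * x = p * y := by
  obtain ⟨c, hc⟩ := dvd_of_redp (x := x - y) (by rw [map_sub, h, sub_self])
  linear_combination (p : ZMod (p ^ 2)) * hc + c * psq (p := p)

theorem sq_zero_of_redp {x : ZMod (p ^ 2)} (h : redp p x = 0) : x * x = 0 := by
  obtain ⟨c, hc⟩ := dvd_of_redp h
  rw [hc]
  linear_combination c * c * psq (p := p)

theorem pow_p_eq {x y : ZMod (p ^ 2)} (h : redp p x = redp p y) : x ^ p = y ^ p := by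
  have h1 : (p : ZMod (p ^ 2)) ∣ x - y := dvd_of_redp (by rw [map_sub, h, sub_self])
  have h2 := dvd_sub_pow_of_dvd_sub h1 1
  rw [pow_one] at h2
  obtain ⟨c, hc⟩ := h2
  linear_combination hc + c * psq (p := p)

theorem isUnit_of_redp {x : ZMod (p ^ 2)} (h : redp p x ≠ 0) : IsUnit x := by
  have := neZero_sq (p := p)
  have h1 : ((x.val : ℕ) : ZMod (p ^ 2)) = x := ZMod.natCast_zmod_val x
  rw [← h1]
  apply isUnit_natCast
  intro hd
  apply h
  rw [← h1, redp_natCast]
  exact (ZMod.natCast_eq_zero_iff _ _).mpr hd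

theorem redp_val (t : ZMod p) : redp p ((t.val : ℕ) : ZMod (p ^ 2)) = t := by
  rw [redp_natCast, ZMod.natCast_zmod_val]

/-- Teichmueller representative -/
def T : ZMod p →* ZMod (p ^ 2) where
  toFun t := ((t.val : ℕ) : ZMod (p ^ 2)) ^ p
  map_one' := by
    have h := pow_p_eq (x := (((1 : ZMod p).val : ℕ) : ZMod (p ^ 2))) (y := 1)
      (by rw [redp_val, map_one])
    rw [h, one_pow]
  map_mul' s t := by
    rw [← mul_pow]
    apply pow_p_eq
    rw [map_mul, redp_val, redp_val, redp_val]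

theorem T_apply (t : ZMod p) : T t = ((t.val : ℕ) : ZMod (p ^ 2)) ^ p := rfl

theorem redp_T (t : ZMod p) : redp p (T t) = t := by
  rw [T_apply, map_pow, redp_val, ZMod.pow_card]

theorem pow_eq_T (x : ZMod (p ^ 2)) : x ^ p = T (redp p x) := by
  rw [T_apply]
  apply pow_p_eq
  rw [redp_val]

theorem T_zero : T (0 : ZMod p) = 0 := by
  rw [T_apply, ZMod.val_zero, Nat.cast_zero, zero_pow hp.out.ne_zero]

theorem T_one_sub (t : ZMod p) : T (1 - t) = (1 - T t) ^ p := by
  rw [pow_eq_T, map_sub (redp p), map_one (redp p), redp_T]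

/-- orthogonality -/
theorem orth {m : ℕ} (hm : 0 < m) :
    ∑ t : ZMod p, T t ^ m = if p - 1 ∣ m then (p : ZMod (p ^ 2)) - 1 else 0 := by
  split_ifs with h
  · obtain ⟨c, rfl⟩ := h
    have h1 : ∀ t : ZMod p, T t ^ ((p - 1) * c) = 1 - if t = 0 then 1 else 0 := by
      intro t
      split_ifs with ht
      · rw [ht, T_zero, zero_pow hm.ne', sub_self]
      · rw [← map_pow, pow_mul, ZMod.pow_card_sub_one_eq_one ht, one_pow, map_one, sub_zero]
    rw [Finset.sum_congr rfl fun t _ => h1 t, Finset.sum_sub_distrib, Finset.sum_ite_eq']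
    simp
  · have h1 : ∃ g : (ZMod p)ˣ, g ^ m ≠ 1 := by
      by_contra hcon
      push Not at hcon
      have := (FiniteField.forall_pow_eq_one_iff (ZMod p) m).mp hcon
      rw [ZMod.card] at this
      exact h this
    obtain ⟨g, hg⟩ := h1
    have h2 : ∑ t : ZMod p, T t ^ m = T (g : ZMod p) ^ m * ∑ t : ZMod p, T t ^ m := by
      rw [Finset.mul_sum]
      rw [← Equiv.sum_comp (Units.mulLeft g) (fun t : ZMod p => T t ^ m)]
      apply Finset.sum_congr rfl
      intro t _
      rw [Units.mulLeft_apply, map_mul, mul_pow]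
    have h3 : IsUnit (T (g : ZMod p) ^ m - 1) := by
      apply isUnit_of_redp
      rw [map_sub, map_pow, redp_T, map_one]
      intro h0
      apply hg
      ext
      push_cast
      exact sub_eq_zero.mp h0
    apply (IsUnit.mul_right_eq_zero h3).mp
    linear_combination -h2

theorem one_sub_pow_expand {R : Type*} [CommRing R] (x : R) (m : ℕ) :
    (1 - x) ^ m = ∑ k ∈ range (m + 1), (-1) ^ k * (m.choose k : R) * x ^ k := by
  rw [sub_eq_neg_add, add_pow]
  apply Finset.sum_congr rfl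
  intro k _
  rw [one_pow, neg_pow x k]
  ring

theorem sum_expand (a m : ℕ) (ha : 0 < a) :
    ∑ t : ZMod p, T t ^ a * (1 - T t) ^ m = ∑ k ∈ range (m + 1),
      (if p - 1 ∣ a + k then (-1) ^ k * (m.choose k : ZMod (p ^ 2)) * ((p : ZMod (p ^ 2)) - 1)
        else 0) := by
  have h1 : ∀ t : ZMod p, T t ^ a * (1 - T t) ^ m = ∑ k ∈ range (m + 1),
      (-1) ^ k * (m.choose k : ZMod (p ^ 2)) * T t ^ (a + k) := by
    intro t
    rw [one_sub_pow_expand, Finset.mul_sum]
    apply Finset.sum_congr rfl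
    intro k _
    rw [pow_add]
    ring
  rw [Finset.sum_congr rfl fun t _ => h1 t, Finset.sum_comm]
  apply Finset.sum_congr rfl
  intro k _
  rw [← Finset.mul_sum, orth (by omega)]
  split_ifs <;> simp

variable {n : ℕ} (hn : p = 3 * n + 1) (hn0 : 0 < n) (hne : Even n)

include hn hn0 hne

theorem U_two : ∑ t : ZMod p, T t ^ (2 * n) * (1 - T t) ^ (2 * n) =
    ((p : ZMod (p ^ 2)) - 1) * ((2 * n).choose n : ℕ) := by
  rw [sum_expand _ _ (by omega), Finset.sum_eq_single n]
  · rw [if_pos, hne.neg_one_pow]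
    · ring
    · rw [hn]; exact ⟨1, by omega⟩
  · intro k hk hkn
    rw [if_neg]
    rintro ⟨c, hc⟩
    rw [Finset.mem_range] at hk
    rw [hn, Nat.add_sub_cancel] at hc
    rcases c with _ | _ | c
    · omega
    · omega
    · have : 3 * n * (c + 1 + 1) = 6 * n + 3 * n * c := by ring
      rw [this] at hc
      have h0 : 0 ≤ 3 * n * c := Nat.zero_le _
      generalize 3 * n * c = z at hc h0
      omega
  · intro h
    exfalso
    apply h
    rw [Finset.mem_range]
    omega

theorem U_five : ∑ t : ZMod p, T t ^ (2 * n) * (1 - T t) ^ (5 * n) =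
    ((p : ZMod (p ^ 2)) - 1) * (2 * ((5 * n).choose n : ℕ)) := by
  rw [sum_expand _ _ (by omega)]
  have h1 : ∀ k ∈ range (5 * n + 1), k ∉ ({n, 4 * n} : Finset ℕ) →
      (if p - 1 ∣ 2 * n + k then (-1) ^ k * ((5 * n).choose k : ZMod (p ^ 2)) *
        ((p : ZMod (p ^ 2)) - 1) else 0) = 0 := by
    intro k hk hkn
    rw [if_neg]
    rintro ⟨c, hc⟩
    rw [Finset.mem_range] at hk
    simp only [Finset.mem_insert, Finset.mem_singleton, not_or] at hkn
    rw [hn, Nat.add_sub_cancel] at hc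
    rcases c with _ | _ | _ | c
    · omega
    · omega
    · omega
    · have : 3 * n * (c + 1 + 1 + 1) = 9 * n + 3 * n * c := by ring
      rw [this] at hc
      have h0 : 0 ≤ 3 * n * c := Nat.zero_le _
      generalize 3 * n * c = z at hc h0
      omega
  have h2 : ({n, 4 * n} : Finset ℕ) ⊆ range (5 * n + 1) := by
    intro k hk
    simp only [Finset.mem_insert, Finset.mem_singleton] at hk
    rw [Finset.mem_range]
    omega
  rw [← Finset.sum_subset h2 h1, Finset.sum_pair (by omega)]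
  rw [if_pos (by rw [hn]; exact ⟨1, by omega⟩), if_pos (by rw [hn]; exact ⟨2, by omega⟩)]
  rw [hne.neg_one_pow, (hne.mul_left 4).neg_one_pow]
  have h3 : (5 * n).choose (4 * n) = (5 * n).choose n :=
    Nat.choose_symm_of_eq_add (by ring)
  rw [h3]
  ring

omit hp hn hn0 hne in
theorem one_add_pow_of_sq {R : Type*} [CommRing R] {e : R} (h : e * e = 0) (m : ℕ) :
    (1 + e) ^ m = 1 + m * e := by
  induction m with
  | zero => simp
  | succ m ih =>
    rw [pow_succ, ih]
    push_cast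
    linear_combination (m : R) * h

omit hne in
theorem T_one_sub_pow (t : ZMod p) : T (1 - t) ^ (2 * n) = (1 - T t) ^ (2 * n) +
    2 * (n : ZMod (p ^ 2)) * ((1 - T t) ^ (5 * n) - (1 - T t) ^ (2 * n)) := by
  by_cases ht : t = 1
  · rw [ht, map_one, sub_self, sub_self, T_zero, zero_pow (by omega), zero_pow (by omega)]
    ring
  · set y : ZMod (p ^ 2) := 1 - T t with hy
    rw [T_one_sub, ← hy]
    have hr : redp p y = 1 - t := by rw [hy, map_sub, map_one, redp_T]
    have hr0 : (1 : ZMod p) - t ≠ 0 := sub_ne_zero.mpr (Ne.symm ht)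
    have he : redp p (y ^ (3 * n) - 1) = 0 := by
      rw [map_sub, map_pow, map_one, hr]
      have : 3 * n = p - 1 := by omega
      rw [this, ZMod.pow_card_sub_one_eq_one hr0, sub_self]
    have h1 := one_add_pow_of_sq (sq_zero_of_redp he) (2 * n)
    rw [add_sub_cancel] at h1
    have h2 : (y ^ p) ^ (2 * n) = y ^ (2 * n) * (y ^ (3 * n)) ^ (2 * n) := by
      rw [← pow_mul, ← pow_mul, ← pow_add]
      congr 1
      rw [hn]
      ring
    rw [h2, h1]
    have h3 : y ^ (5 * n) = y ^ (2 * n) * y ^ (3 * n) := by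
      rw [← pow_add]
      congr 1
      ring
    rw [h3]
    push_cast
    ring

theorem J_expand : ∑ t : ZMod p, T t ^ (2 * n) * T (1 - t) ^ (2 * n) =
    ((p : ZMod (p ^ 2)) - 1) * (((2 * n).choose n : ℕ) + 2 * n * (2 * ((5 * n).choose n : ℕ) -
      ((2 * n).choose n : ℕ))) := by
  have h1 : ∀ t : ZMod p, T t ^ (2 * n) * T (1 - t) ^ (2 * n) =
      T t ^ (2 * n) * (1 - T t) ^ (2 * n) +
      2 * (n : ZMod (p ^ 2)) * (T t ^ (2 * n) * (1 - T t) ^ (5 * n) - T t ^ (2 * n) * (1 - T t) ^ (2 * n)) := by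
    intro t
    rw [T_one_sub_pow hn hn0]
    ring
  rw [Finset.sum_congr rfl fun t _ => h1 t, Finset.sum_add_distrib, ← Finset.mul_sum,
    Finset.sum_sub_distrib, U_two hn hn0 hne, U_five hn hn0 hne]
  ring

omit hn0 hne in
/-- the central congruence for the products -/
theorem prodXY (hn2 : p ≠ 2) : ((∏ i ∈ range n, (p + (n + 1 + i)) : ℕ) : ZMod (p ^ 2)) =
    ((∏ i ∈ range n, (n + 1 + i) : ℕ) : ZMod (p ^ 2)) := by
  have hY := reflect (p := p) (fun i => n + 1 + i) (fun i => n + 1 + i) n (by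
    intro i hi
    omega)
  have hX : ((∏ i ∈ range n, (p + (n + 1 + i)) : ℕ) : ZMod (p ^ 2)) =
      ∏ i ∈ range n, (2 * (p : ZMod (p ^ 2)) - ((n + 1 + i : ℕ) : ZMod (p ^ 2))) := by
    rw [← Finset.prod_range_reflect, Nat.cast_prod]
    apply Finset.prod_congr rfl
    intro i hi
    rw [Finset.mem_range] at hi
    have h2 : ((p + (n + 1 + (n - 1 - i)) + (n + 1 + i) : ℕ) : ZMod (p ^ 2)) =
        ((2 * p : ℕ) : ZMod (p ^ 2)) := by
      congr 1
      omega
    push_cast at h2 ⊢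
    rw [← h2]
    ring
  have hXX : ((∏ i ∈ range n, (p + (n + 1 + i)) : ℕ) : ZMod (p ^ 2)) *
      ((∏ i ∈ range n, (p + (n + 1 + i)) : ℕ) : ZMod (p ^ 2)) =
      ((∏ i ∈ range n, (n + 1 + i) : ℕ) : ZMod (p ^ 2)) *
      ((∏ i ∈ range n, (n + 1 + i) : ℕ) : ZMod (p ^ 2)) := by
    conv_lhs => rw [hX]
    conv_rhs => rw [hY]
    nth_rewrite 1 [← hX]
    nth_rewrite 1 [← hY]
    rw [Nat.cast_prod, Nat.cast_prod, ← prod_mul_distrib, ← prod_mul_distrib]
    apply Finset.prod_congr rfl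
    intro i _
    push_cast
    linear_combination 2 * psq (p := p)
  have hred : redp p ((∏ i ∈ range n, (p + (n + 1 + i)) : ℕ) : ZMod (p ^ 2)) =
      redp p ((∏ i ∈ range n, (n + 1 + i) : ℕ) : ZMod (p ^ 2)) := by
    rw [redp_natCast, redp_natCast]
    push_cast
    rw [ZMod.natCast_self]
    simp
  have hu : IsUnit (((∏ i ∈ range n, (p + (n + 1 + i)) : ℕ) : ZMod (p ^ 2)) +
      ((∏ i ∈ range n, (n + 1 + i) : ℕ) : ZMod (p ^ 2))) := by
    apply isUnit_of_redp
    rw [map_add, hred, ← two_mul, redp_natCast]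
    apply mul_ne_zero
    · intro h0
      have : ((2 : ℕ) : ZMod p) = 0 := by exact_mod_cast h0
      rw [ZMod.natCast_eq_zero_iff] at this
      exact hn2 ((Nat.prime_dvd_prime_iff_eq hp.out Nat.prime_two).mp this)
    · rw [Ne, ZMod.natCast_eq_zero_iff, Prime.dvd_finsetProd_iff hp.out.prime]
      rintro ⟨i, hi, hd⟩
      rw [Finset.mem_range] at hi
      have h2 := Nat.le_of_dvd (by omega) hd
      omega
  have h0 : (((∏ i ∈ range n, (p + (n + 1 + i)) : ℕ) : ZMod (p ^ 2)) -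
      ((∏ i ∈ range n, (n + 1 + i) : ℕ) : ZMod (p ^ 2))) *
      (((∏ i ∈ range n, (p + (n + 1 + i)) : ℕ) : ZMod (p ^ 2)) +
      ((∏ i ∈ range n, (n + 1 + i) : ℕ) : ZMod (p ^ 2))) = 0 := by
    linear_combination hXX
  exact sub_eq_zero.mp ((IsUnit.mul_left_eq_zero hu).mp h0)

omit hn0 hne in
theorem B5 (hn2 : p ≠ 2) : ((p : ZMod (p ^ 2)) + 2 * n) * ((5 * n).choose n : ℕ) =
    ((p : ZMod (p ^ 2)) + n) * ((2 * n).choose n : ℕ) := by
  have h1 : n.factorial * (5 * n).choose n = ∏ i ∈ range n, (4 * n + 1 + i) := by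
    rw [← Nat.ascFactorial_eq_prod_range, Nat.ascFactorial_eq_factorial_mul_choose]
    congr 2
    ring
  have h2 : n.factorial * (2 * n).choose n = ∏ i ∈ range n, (n + 1 + i) := by
    rw [← Nat.ascFactorial_eq_prod_range, Nat.ascFactorial_eq_factorial_mul_choose]
    congr 2
    ring
  have h3 : (p + n) * ∏ i ∈ range n, (p + (n + 1 + i)) =
      (p + 2 * n) * ∏ i ∈ range n, (4 * n + 1 + i) := by
    have e1 : (p + n) * ∏ i ∈ range n, (p + (n + 1 + i)) =
        ∏ i ∈ range (n + 1), (4 * n + 1 + i) := by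
      rw [prod_range_succ', mul_comm]
      congr 1
      · apply Finset.prod_congr rfl
        intro i _
        omega
      · omega
    rw [e1, prod_range_succ, mul_comm]
    congr 1
    omega
  rw [← h1] at h3
  have h4 := congrArg (Nat.cast : ℕ → ZMod (p ^ 2)) h3
  rw [Nat.cast_mul, prodXY hn hn2, ← h2] at h4
  have hu : IsUnit ((n.factorial : ℕ) : ZMod (p ^ 2)) := by
    apply isUnit_natCast
    rw [hp.out.dvd_factorial]
    omega
  apply hu.mul_left_cancel
  push_cast at h4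
  linear_combination -h4

/-- the Jacobi sum modulo `p ^ 2` -/
theorem J_eq (hn2 : p ≠ 2) : ∑ t : ZMod p, T t ^ (2 * n) * T (1 - t) ^ (2 * n) =
    -(((2 * n).choose n : ℕ) : ZMod (p ^ 2)) := by
  have hu : IsUnit ((p : ZMod (p ^ 2)) + 2 * n) := by
    apply isUnit_of_redp
    have : (p : ZMod (p ^ 2)) + 2 * n = ((p + 2 * n : ℕ) : ZMod (p ^ 2)) := by push_cast; rfl
    rw [this, redp_natCast, Nat.cast_add, ZMod.natCast_self, zero_add, Ne, ZMod.natCast_eq_zero_iff]
    intro hd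
    have := Nat.le_of_dvd (by omega) hd
    omega
  apply hu.mul_left_cancel
  rw [J_expand hn hn0 hne]
  have h := B5 hn hn2
  set b := (((2 * n).choose n : ℕ) : ZMod (p ^ 2))
  linear_combination ((p : ZMod (p ^ 2)) - 1) * 2 * n * 2 * h + b * (1 + 2 * n) * psq (p := p)

end Pool.Agent.helper90.Tri
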