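import Pool.Agent.helper90.Tri.Interp

/-!
The values modulo `p ^ 2`.
-/

namespace Pool.Agent.helper90.Tri

open Finset

section nat

/-- product of odd numbers -/
theorem odd_prod (n : ℕ) : 2 ^ n * n.factorial * ∏ i ∈ range n, (2 * i + 1) = (2 * n).factorial := by
  induction n with
  | zero => simp
  | succ n ih =>
    have h : 2 * (n + 1) = 2 * n + 1 + 1 := by ring
    rw [prod_range_succ, h, Nat.factorial_succ, Nat.factorial_succ, Nat.factorial_succ, ← ih]
    ring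

theorem fac_mul_asc (j : ℕ) : j.factorial * ∏ i ∈ range j, (j + i + 1) = (2 * j).factorial := by
  have h : ∀ k, j.factorial * ∏ i ∈ range k, (j + i + 1) = (j + k).factorial := by
    intro k
    induction k with
    | zero => simp
    | succ k ih =>
      rw [prod_range_succ, ← mul_assoc, ih, ← add_assoc, Nat.factorial_succ]
      ring
  rw [h j, two_mul]

theorem two_pow_mul_oddLo (j : ℕ) :
    2 ^ j * ∏ i ∈ range j, (2 * i + 1) = ∏ i ∈ range j, (j + i + 1) := by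
  apply Nat.eq_of_mul_eq_mul_left j.factorial_pos
  rw [fac_mul_asc, ← odd_prod]
  ring

theorem b_mul_fac (j : ℕ) :
    (4 * j).choose (2 * j) * j.factorial = 2 ^ j * ∏ i ∈ range j, (2 * (j + i) + 1) := by
  have h1 := Nat.choose_mul_factorial_mul_factorial (n := 4 * j) (k := 2 * j) (by omega)
  have h2 : 4 * j - 2 * j = 2 * j := by omega
  rw [h2] at h1
  have h3 := odd_prod (2 * j)
  have h4 : 2 * (2 * j) = 4 * j := by ring
  rw [h4, ← h1] at h3
  have h5 : ∏ i ∈ range (2 * j), (2 * i + 1) =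
      (∏ i ∈ range j, (2 * i + 1)) * ∏ i ∈ range j, (2 * (j + i) + 1) := by
    rw [two_mul j, prod_range_add]
  rw [h5] at h3
  have h6 := two_pow_mul_oddLo j
  have h7 := fac_mul_asc j
  have hL : 0 < ∏ i ∈ range j, (j + i + 1) := Finset.prod_pos fun i _ => by omega
  apply Nat.eq_of_mul_eq_mul_left hL
  apply Nat.eq_of_mul_eq_mul_left (2 * j).factorial_pos
  calc (2 * j).factorial * ((∏ i ∈ range j, (j + i + 1)) * ((4 * j).choose (2 * j) * j.factorial))
      = (4 * j).choose (2 * j) * (2 * j).factorial * (j.factorial * ∏ i ∈ range j, (j + i + 1)) := by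
        ring
    _ = (4 * j).choose (2 * j) * (2 * j).factorial * (2 * j).factorial := by rw [h7]
    _ = 2 ^ (2 * j) * (2 * j).factorial * ((∏ i ∈ range j, (2 * i + 1)) *
          ∏ i ∈ range j, (2 * (j + i) + 1)) := h3.symm
    _ = (2 * j).factorial * ((2 ^ j * ∏ i ∈ range j, (2 * i + 1)) *
          (2 ^ j * ∏ i ∈ range j, (2 * (j + i) + 1))) := by
        rw [two_mul j, pow_add]; ring
    _ = _ := by rw [h6]

end nat

variable {p : ℕ} [hp : Fact p.Prime]

theorem isUnit_cast_prod (f : ℕ → ℕ) (n : ℕ) (h : ∀ i < n, 0 < f i ∧ f i < p) :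
    IsUnit ((∏ i ∈ range n, f i : ℕ) : ZMod (p ^ 2)) := by
  apply isUnit_natCast
  intro hd
  rw [Prime.dvd_finsetProd_iff hp.out.prime] at hd
  obtain ⟨i, hi, hd⟩ := hd
  rw [Finset.mem_range] at hi
  have h1 := h i hi
  have h2 := Nat.le_of_dvd h1.1 hd
  omega

omit hp in
theorem reflect (f g : ℕ → ℕ) (j : ℕ) (h : ∀ i < j, f (j - 1 - i) + g i = p) :
    ((∏ i ∈ range j, f i : ℕ) : ZMod (p ^ 2)) = ∏ i ∈ range j, ((p : ZMod (p ^ 2)) - (g i : ZMod (p ^ 2))) := by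
  rw [← Finset.prod_range_reflect, Nat.cast_prod]
  apply Finset.prod_congr rfl
  intro i hi
  rw [Finset.mem_range] at hi
  have := h i hi
  have h2 : ((f (j - 1 - i) + g i : ℕ) : ZMod (p ^ 2)) = (p : ZMod (p ^ 2)) := by rw [this]
  push_cast at h2
  rw [← h2]
  ring

theorem pprod {R : Type*} [CommRing R] (q : R) (f g : ℕ → R) (n : ℕ)
    (h : ∀ i < n, q * f i = q * g i) :
    q * ∏ i ∈ range n, f i = q * ∏ i ∈ range n, g i := by
  induction n with
  | zero => simp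
  | succ n ih =>
    have ih := ih fun i hi => h i (by omega)
    have h1 := h n (by omega)
    rw [prod_range_succ, prod_range_succ]
    linear_combination (f n) * ih + (∏ i ∈ range n, g i) * h1

omit hp in
theorem const_prod (c : ZMod (p ^ 2)) (f : ℕ → ZMod (p ^ 2)) (n : ℕ) :
    c ^ n * ∏ i ∈ range n, f i = ∏ i ∈ range n, (c * f i) := by
  rw [prod_mul_distrib, prod_const, card_range]

section main

variable (j : ℕ)

omit hp in
theorem fac_cast : ((j.factorial : ℕ) : ZMod (p ^ 2)) = ∏ i ∈ range j, ((i : ZMod (p ^ 2)) + 1) := by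
  rw [← prod_range_add_one_eq_factorial]
  push_cast
  rfl

/-- `∏ (6i+1)` -/
def A6 : ℕ := ∏ i ∈ range j, (6 * i + 1)
/-- `∏ (3i+1)` -/
def A3lo : ℕ := ∏ i ∈ range j, (3 * i + 1)
/-- `∏ (3(j+i)+1)` -/
def A3hi : ℕ := ∏ i ∈ range j, (3 * (j + i) + 1)
/-- `∏ (2(j+i)+1)` -/
def OddHi : ℕ := ∏ i ∈ range j, (2 * (j + i) + 1)
/-- `∏ (2i+1)` -/
def OddLo : ℕ := ∏ i ∈ range j, (2 * i + 1)
/-- `∏ (j+i+1)` -/
def LL : ℕ := ∏ i ∈ range j, (j + i + 1)

variable {j} (hj : p = 6 * j + 1)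

include hj

omit hp in
theorem A6_eq : ((A6 j : ℕ) : ZMod (p ^ 2)) =
    ∏ i ∈ range j, ((p : ZMod (p ^ 2)) - ((6 * (i + 1) : ℕ) : ZMod (p ^ 2))) :=
  reflect _ (fun i => 6 * (i + 1)) j (by intro i hi; omega)

omit hp in
theorem A3lo_eq : ((A3lo j : ℕ) : ZMod (p ^ 2)) =
    ∏ i ∈ range j, ((p : ZMod (p ^ 2)) - ((3 * (j + i + 1) : ℕ) : ZMod (p ^ 2))) :=
  reflect _ (fun i => 3 * (j + i + 1)) j (by intro i hi; omega)

omit hp in
theorem A3hi_eq : ((A3hi j : ℕ) : ZMod (p ^ 2)) =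
    ∏ i ∈ range j, ((p : ZMod (p ^ 2)) - ((3 * (i + 1) : ℕ) : ZMod (p ^ 2))) :=
  reflect _ (fun i => 3 * (i + 1)) j (by intro i hi; omega)

omit hp in
theorem OddHi_eq : ((OddHi j : ℕ) : ZMod (p ^ 2)) =
    ∏ i ∈ range j, ((p : ZMod (p ^ 2)) - ((2 * (j + i + 1) : ℕ) : ZMod (p ^ 2))) :=
  reflect _ (fun i => 2 * (j + i + 1)) j (by intro i hi; omega)

omit hp in
theorem P1 : (12 : ZMod (p ^ 2)) ^ j * (A3hi j : ℕ) * (j.factorial : ℕ) =
    (-1) ^ j * ((A6 j : ℕ) : ZMod (p ^ 2)) ^ 2 := by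
  rw [A3hi_eq hj, A6_eq hj, fac_cast, const_prod, ← prod_mul_distrib, ← prod_pow, const_prod]
  apply Finset.prod_congr rfl
  intro i _
  push_cast
  linear_combination psq (p := p)

omit hp in
theorem P2 : (4 : ZMod (p ^ 2)) ^ j * ((A3lo j : ℕ) : ZMod (p ^ 2)) ^ 3 =
    (-27) ^ j * (LL j : ℕ) * ((OddHi j : ℕ) : ZMod (p ^ 2)) ^ 2 := by
  rw [A3lo_eq hj, OddHi_eq hj]
  unfold LL
  rw [Nat.cast_prod, ← prod_pow, ← prod_pow, const_prod, const_prod, ← prod_mul_distrib]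
  apply Finset.prod_congr rfl
  intro i _
  push_cast
  linear_combination (4 * (p : ZMod (p ^ 2)) - 9 * (j + i + 1)) * psq (p := p)

omit hp in
theorem pA6 : (p : ZMod (p ^ 2)) * (A6 j : ℕ) = p * ((-6) ^ j * (j.factorial : ℕ)) := by
  rw [A6_eq hj, fac_cast, const_prod]
  apply pprod
  intro i _
  push_cast
  linear_combination psq (p := p)

omit hp in
theorem pA3lo : (p : ZMod (p ^ 2)) * (A3lo j : ℕ) = p * ((-3) ^ j * (LL j : ℕ)) := by
  rw [A3lo_eq hj]
  unfold LL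
  rw [Nat.cast_prod, const_prod]
  apply pprod
  intro i _
  push_cast
  linear_combination psq (p := p)

omit hp in
theorem pA3hi : (p : ZMod (p ^ 2)) * (A3hi j : ℕ) = p * ((-3) ^ j * (j.factorial : ℕ)) := by
  rw [A3hi_eq hj, fac_cast, const_prod]
  apply pprod
  intro i _
  push_cast
  linear_combination psq (p := p)

omit hp in
theorem pOddHi : (p : ZMod (p ^ 2)) * (OddHi j : ℕ) = p * ((-2) ^ j * (LL j : ℕ)) := by
  rw [OddHi_eq hj]
  unfold LL
  rw [Nat.cast_prod, const_prod]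
  apply pprod
  intro i _
  push_cast
  linear_combination psq (p := p)

omit hp in
theorem pTop : (p : ZMod (p ^ 2)) * ((∏ i ∈ range j, (6 * (j + i) + 7) : ℕ) : ZMod (p ^ 2)) =
    p * (6 ^ j * (j.factorial : ℕ)) := by
  rw [Nat.cast_prod, fac_cast, const_prod]
  apply pprod
  intro i _
  have : ((6 * (j + i) + 7 : ℕ) : ZMod (p ^ 2)) = p + 6 * (i + 1) := by
    have h : 6 * (j + i) + 7 = p + 6 * (i + 1) := by omega
    rw [h]
    push_cast
    ring
  rw [this]
  linear_combination psq (p := p)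

theorem p64 : (p : ZMod (p ^ 2)) * 64 ^ j = p := by
  have hp2 : p.Coprime 2 := by
    rw [Nat.coprime_comm, Nat.coprime_two_left, hj]
    exact ⟨3 * j, by ring⟩
  have h1 : (p : ℤ) ∣ 2 ^ (p - 1) - 1 := by
    have := Int.ModEq.pow_card_sub_one_eq_one hp.out (n := 2) (by
      rw [Int.isCoprime_iff_gcd_eq_one]
      exact_mod_cast hp2.symm)
    exact this.symm.dvd
  obtain ⟨c, hc⟩ := h1
  have h2 : (64 : ZMod (p ^ 2)) ^ j = 1 + p * (c : ZMod (p ^ 2)) := by
    have h3 : ((2 ^ (p - 1) - 1 : ℤ) : ZMod (p ^ 2)) = ((p * c : ℤ) : ZMod (p ^ 2)) := by rw [hc]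
    push_cast at h3
    have h4 : (2 : ZMod (p ^ 2)) ^ (p - 1) = 64 ^ j := by
      rw [hj, Nat.add_sub_cancel, pow_mul]
      norm_num
    rw [h4] at h3
    linear_combination h3
  rw [h2]
  linear_combination (c : ZMod (p ^ 2)) * psq (p := p)

end main

end Pool.Agent.helper90.Tri
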