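import Pool.Agent.helper90.Tri.Closed

namespace Pool.Agent.helper90.Tri

section K

variable (j : ℕ) (hj : 2 ≤ j)

include hj

theorem condK1 (i : ℕ) (hi : i ≤ 2 * j) : (i : ℚ) - 3 * j ≠ 0 := by
  have hjq : (2 : ℚ) ≤ j := by exact_mod_cast hj
  have : (i : ℚ) ≤ (2 * j : ℕ) := by exact_mod_cast hi
  push_cast at this
  intro h0
  linarith

theorem condK2 (i : ℕ) (hi : i ≤ 2 * j + 1) : (i : ℚ) - (3 * j + 3) ≠ 0 := by
  have hjq : (2 : ℚ) ≤ j := by exact_mod_cast hj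
  have : (i : ℚ) ≤ (2 * j + 1 : ℕ) := by exact_mod_cast hi
  push_cast at this
  intro h0
  linarith

theorem condK3 : (3 * (j : ℚ) - 1 - (2 * j : ℕ)) ≠ 0 := by
  have hjq : (2 : ℚ) ≤ j := by exact_mod_cast hj
  push_cast
  intro h0
  linarith

omit hj in
theorem condK4 (i : ℕ) (hi : i ≤ 2 * j + 1) : (2 * (j : ℚ) + 1 / 3) + 2 - i ≠ 0 := by
  have : (i : ℚ) ≤ (2 * j + 1 : ℕ) := by exact_mod_cast hi
  push_cast at this
  intro h0
  linarith

end K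

/-- first family, unweighted -/
theorem sumK (j : ℕ) (hj : 2 ≤ j) :
    ∑ k ∈ Finset.range (2 * j + 1), tt (2 * j : ℕ) (2 * (j : ℚ) + 1 / 3) (3 * j) k =
      ∏ i ∈ Finset.range j, (-(3 * (2 * (i : ℚ) + 1)) / (32 * (3 * (i : ℚ) + 1))) := by
  induction j, hj using Nat.le_induction with
  | base => norm_num [Finset.sum_range_succ, Finset.prod_range_succ, tt_succ, tt_zero]
  | succ j hj ih =>
    have h1 := tele (2 * j) (2 * (j : ℚ) + 1 / 3) (3 * j)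
      (fun k => (7072 / 3 + 16272 * (j : ℚ) + 132224 / 3 * (j : ℚ) ^ 2 + 58576 * (j : ℚ) ^ 3 +
        38208 * (j : ℚ) ^ 4 + 9792 * (j : ℚ) ^ 5) +
        (-6128 / 3 - 11560 * (j : ℚ) - 71800 / 3 * (j : ℚ) ^ 2 - 21520 * (j : ℚ) ^ 3 -
          7104 * (j : ℚ) ^ 4) * k +
        (432 + 1944 * (j : ℚ) + 2808 * (j : ℚ) ^ 2 + 1296 * (j : ℚ) ^ 3) * k ^ 2)
      (fun _ => 1) (fun _ => 1)
      (27 * (2 * j + 1) * (3 * j + 2) * (j + 1)) (288 * (3 * j + 1) * (3 * j + 2) * (j + 1))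
      (condK1 j hj) (condK2 j hj) (condK3 j hj) (by positivity) (condK4 j)
      (by intro k; push_cast; ring)
    simp only [one_mul] at h1
    rw [ih] at h1
    rw [Finset.prod_range_succ]
    have e : ∑ k ∈ Finset.range (2 * (j + 1) + 1),
        tt (2 * (j + 1) : ℕ) (2 * ((j + 1 : ℕ) : ℚ) + 1 / 3) (3 * ((j + 1 : ℕ) : ℚ)) k =
        ∑ k ∈ Finset.range (2 * j + 3),
          tt ((2 * j : ℕ) + 2) (2 * (j : ℚ) + 1 / 3 + 2) (3 * j + 3) k := by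
      apply Finset.sum_congr rfl
      intro k _
      congr 1 <;> push_cast <;> ring
    rw [e]
    have hpos : (288 * (3 * (j : ℚ) + 1) * (3 * j + 2) * (j + 1)) ≠ 0 := by positivity
    apply mul_left_cancel₀ hpos
    have h32 : (32 * (3 * (j : ℚ) + 1)) ≠ 0 := by positivity
    have e2 : 288 * (3 * (j : ℚ) + 1) * (3 * j + 2) * (j + 1) *
        ((∏ i ∈ Finset.range j, (-(3 * (2 * (i : ℚ) + 1)) / (32 * (3 * (i : ℚ) + 1)))) *
        (-(3 * (2 * (j : ℚ) + 1)) / (32 * (3 * (j : ℚ) + 1)))) =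
        -(27 * (2 * (j : ℚ) + 1) * (3 * j + 2) * (j + 1)) *
        ∏ i ∈ Finset.range j, (-(3 * (2 * (i : ℚ) + 1)) / (32 * (3 * (i : ℚ) + 1))) := by
      field_simp
      ring
    rw [e2]
    linear_combination h1

/-- first family, weighted -/
theorem sumM (j : ℕ) (hj : 2 ≤ j) :
    ∑ k ∈ Finset.range (2 * j + 1),
      ((k : ℚ) - (6 * j + 1)) * tt (2 * j : ℕ) (2 * (j : ℚ) + 1 / 3) (3 * j) k =
      -∏ i ∈ Finset.range j, (-(6 * (i : ℚ) + 7) / (32 * (3 * (i : ℚ) + 1))) := by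
  induction j, hj using Nat.le_induction with
  | base => norm_num [Finset.sum_range_succ, Finset.prod_range_succ, tt_succ, tt_zero]
  | succ j hj ih =>
    have h1 := tele (2 * j) (2 * (j : ℚ) + 1 / 3) (3 * j)
      (fun k => (-62272 / 3 - 153312 * (j : ℚ) - 1395680 / 3 * (j : ℚ) ^ 2 - 742496 * (j : ℚ) ^ 3 -
        657504 * (j : ℚ) ^ 4 - 306432 * (j : ℚ) ^ 5 - 58752 * (j : ℚ) ^ 6) +
        (23296 + 140928 * (j : ℚ) + 336192 * (j : ℚ) ^ 2 + 395296 * (j : ℚ) ^ 3 +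
          229152 * (j : ℚ) ^ 4 + 52416 * (j : ℚ) ^ 5) * k +
        (-25424 / 3 - 40024 * (j : ℚ) - 209176 / 3 * (j : ℚ) ^ 2 - 53056 * (j : ℚ) ^ 3 -
          14880 * (j : ℚ) ^ 4) * k ^ 2 +
        (1008 + 3384 * (j : ℚ) + 3672 * (j : ℚ) ^ 2 + 1296 * (j : ℚ) ^ 3) * k ^ 3)
      (fun k => k - (6 * j + 1)) (fun k => k - (6 * j + 7))
      (9 * (6 * j + 7) * (3 * j + 2) * (j + 1)) (288 * (3 * j + 1) * (3 * j + 2) * (j + 1))
      (condK1 j hj) (condK2 j hj) (condK3 j hj) (by positivity) (condK4 j)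
      (by intro k; push_cast; ring)
    rw [ih] at h1
    rw [Finset.prod_range_succ]
    have e : ∑ k ∈ Finset.range (2 * (j + 1) + 1), ((k : ℚ) - (6 * ((j + 1 : ℕ) : ℚ) + 1)) *
        tt (2 * (j + 1) : ℕ) (2 * ((j + 1 : ℕ) : ℚ) + 1 / 3) (3 * ((j + 1 : ℕ) : ℚ)) k =
        ∑ k ∈ Finset.range (2 * j + 3), ((k : ℚ) - (6 * j + 7)) *
          tt ((2 * j : ℕ) + 2) (2 * (j : ℚ) + 1 / 3 + 2) (3 * j + 3) k := by
      apply Finset.sum_congr rfl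
      intro k _
      congr 1
      · push_cast; ring
      · congr 1 <;> push_cast <;> ring
    rw [e]
    have hpos : (288 * (3 * (j : ℚ) + 1) * (3 * j + 2) * (j + 1)) ≠ 0 := by positivity
    apply mul_left_cancel₀ hpos
    have e2 : 288 * (3 * (j : ℚ) + 1) * (3 * j + 2) * (j + 1) *
        -((∏ i ∈ Finset.range j, (-(6 * (i : ℚ) + 7) / (32 * (3 * (i : ℚ) + 1)))) *
        (-(6 * (j : ℚ) + 7) / (32 * (3 * (j : ℚ) + 1)))) =
        (9 * (6 * (j : ℚ) + 7) * (3 * j + 2) * (j + 1)) *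
        ∏ i ∈ Finset.range j, (-(6 * (i : ℚ) + 7) / (32 * (3 * (i : ℚ) + 1))) := by
      field_simp
      ring
    rw [e2]
    linear_combination h1

section H

variable (j : ℕ)

theorem condH1 (i : ℕ) (hi : i ≤ 2 * j) : (i : ℚ) - (3 * j - 1 / 2) ≠ 0 := by
  intro h0
  have : ((2 * i + 1 : ℕ) : ℚ) = (6 * j : ℕ) := by push_cast; linarith
  have : 2 * i + 1 = 6 * j := by exact_mod_cast this
  omega

theorem condH2 (i : ℕ) (hi : i ≤ 2 * j + 1) : (i : ℚ) - ((3 * j - 1 / 2) + 3) ≠ 0 := by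
  intro h0
  have : ((2 * i + 1 : ℕ) : ℚ) = (6 * j + 6 : ℕ) := by push_cast; linarith
  have : 2 * i + 1 = 6 * j + 6 := by exact_mod_cast this
  omega

theorem condH3 : ((3 * (j : ℚ) - 1 / 2) - 1 - (2 * j : ℕ)) ≠ 0 := by
  push_cast
  intro h0
  have : ((2 * j : ℕ) : ℚ) = (3 : ℕ) := by push_cast; linarith
  have : 2 * j = 3 := by exact_mod_cast this
  omega

theorem condH4 (i : ℕ) (hi : i ≤ 2 * j + 1) : (2 * (j : ℚ) - 1 / 3) + 2 - i ≠ 0 := by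
  have : (i : ℚ) ≤ (2 * j + 1 : ℕ) := by exact_mod_cast hi
  push_cast at this
  intro h0
  linarith

theorem condH5 : ((3 * (j : ℚ) - 1 / 2) + 3) * ((3 * (j : ℚ) - 1 / 2) + 2) *
    ((3 * (j : ℚ) - 1 / 2) + 1) ≠ 0 := by
  have h0 : (0 : ℚ) ≤ j := by positivity
  have h1 : 0 < (3 * (j : ℚ) - 1 / 2) + 3 := by linarith
  have h2 : 0 < (3 * (j : ℚ) - 1 / 2) + 2 := by linarith
  have h3 : 0 < (3 * (j : ℚ) - 1 / 2) + 1 := by linarith
  positivity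

end H

/-- second family, unweighted -/
theorem sumH (j : ℕ) :
    ∑ k ∈ Finset.range (2 * j + 1), tt (2 * j : ℕ) (2 * (j : ℚ) - 1 / 3) (3 * j - 1 / 2) k =
      ∏ i ∈ Finset.range j, (-(3 * (i : ℚ) + 1) / (8 * (6 * (i : ℚ) + 1))) := by
  induction j with
  | zero => simp [tt_zero]
  | succ j ih =>
    have h1 := tele (2 * j) (2 * (j : ℚ) - 1 / 3) (3 * j - 1 / 2)
      (fun k => (470 + 4344 * (j : ℚ) + 15526 * (j : ℚ) ^ 2 + 26868 * (j : ℚ) ^ 3 +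
        22536 * (j : ℚ) ^ 4 + 7344 * (j : ℚ) ^ 5) +
        (-515 - 3933 * (j : ℚ) - 10768 * (j : ℚ) ^ 2 - 12588 * (j : ℚ) ^ 3 -
          5328 * (j : ℚ) ^ 4) * k +
        (135 + 837 * (j : ℚ) + 1620 * (j : ℚ) ^ 2 + 972 * (j : ℚ) ^ 3) * k ^ 2)
      (fun _ => 1) (fun _ => 1)
      (9 / 8 * (3 * j + 1) * (6 * j + 3) * (6 * j + 5)) (9 * (6 * j + 1) * (6 * j + 3) * (6 * j + 5))
      (condH1 j) (condH2 j) (condH3 j) (condH5 j) (condH4 j)
      (by intro k; push_cast; ring)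
    simp only [one_mul] at h1
    rw [ih] at h1
    rw [Finset.prod_range_succ]
    have e : ∑ k ∈ Finset.range (2 * (j + 1) + 1),
        tt (2 * (j + 1) : ℕ) (2 * ((j + 1 : ℕ) : ℚ) - 1 / 3) (3 * ((j + 1 : ℕ) : ℚ) - 1 / 2) k =
        ∑ k ∈ Finset.range (2 * j + 3),
          tt ((2 * j : ℕ) + 2) (2 * (j : ℚ) - 1 / 3 + 2) (3 * j - 1 / 2 + 3) k := by
      apply Finset.sum_congr rfl
      intro k _
      congr 1 <;> push_cast <;> ring
    rw [e]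
    have hpos : (9 * (6 * (j : ℚ) + 1) * (6 * j + 3) * (6 * j + 5)) ≠ 0 := by positivity
    apply mul_left_cancel₀ hpos
    have e2 : 9 * (6 * (j : ℚ) + 1) * (6 * j + 3) * (6 * j + 5) *
        ((∏ i ∈ Finset.range j, (-(3 * (i : ℚ) + 1) / (8 * (6 * (i : ℚ) + 1)))) *
        (-(3 * (j : ℚ) + 1) / (8 * (6 * (j : ℚ) + 1)))) =
        -(9 / 8 * (3 * (j : ℚ) + 1) * (6 * j + 3) * (6 * j + 5)) *
        ∏ i ∈ Finset.range j, (-(3 * (i : ℚ) + 1) / (8 * (6 * (i : ℚ) + 1))) := by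
      field_simp
    rw [e2]
    linear_combination h1

/-- second family, weighted -/
theorem sumD (j : ℕ) :
    ∑ k ∈ Finset.range (2 * j + 1),
      ((k : ℚ) - 6 * j) * tt (2 * j : ℕ) (2 * (j : ℚ) - 1 / 3) (3 * j - 1 / 2) k = 0 := by
  induction j with
  | zero => simp [tt_zero]
  | succ j ih =>
    have h1 := tele (2 * j) (2 * (j : ℚ) - 1 / 3) (3 * j - 1 / 2)
      (fun k => (-3870 - 36804 * (j : ℚ) - 142542 * (j : ℚ) ^ 2 - 287880 * (j : ℚ) ^ 3 -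
        319968 * (j : ℚ) ^ 4 - 185760 * (j : ℚ) ^ 5 - 44064 * (j : ℚ) ^ 6) +
        (5615 + 43323 * (j : ℚ) + 130732 * (j : ℚ) ^ 2 + 192816 * (j : ℚ) ^ 3 +
          139104 * (j : ℚ) ^ 4 + 39312 * (j : ℚ) ^ 5) * k +
        (-2630 - 15696 * (j : ℚ) - 34258 * (j : ℚ) ^ 2 - 32352 * (j : ℚ) ^ 3 -
          11160 * (j : ℚ) ^ 4) * k ^ 2 +
        (405 + 1701 * (j : ℚ) + 2268 * (j : ℚ) ^ 2 + 972 * (j : ℚ) ^ 3) * k ^ 3)
      (fun k => k - 6 * j) (fun k => k - (6 * j + 6))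
      (405 / 8 + 1701 / 8 * j + 567 / 2 * j ^ 2 + 243 / 2 * j ^ 3)
      (9 * (6 * j + 1) * (6 * j + 3) * (6 * j + 5))
      (condH1 j) (condH2 j) (condH3 j) (condH5 j) (condH4 j)
      (by intro k; push_cast; ring)
    rw [ih, mul_zero, zero_add] at h1
    have hpos : (9 * (6 * (j : ℚ) + 1) * (6 * j + 3) * (6 * j + 5)) ≠ 0 := by positivity
    have h2 := (mul_eq_zero.mp h1).resolve_left hpos
    rw [← h2]
    apply Finset.sum_congr rfl
    intro k _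
    congr 1
    · push_cast; ring
    · congr 1 <;> push_cast <;> ring

end Pool.Agent.helper90.Tri
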